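import Pool.Agent.U279.KT.Bragg

/-!
Local patterns.
-/

set_option autoImplicit false
open MeasureTheory Set

namespace Pool.Agent.U279.KT

variable {d m N : ℕ} {L θ ℓ : ℝ}

theorem sign_dir (z : ℝ) : ∃ k : Fin 2, |z| = (-1 : ℝ) ^ (k : ℕ) * z := by
  rcases abs_cases z with ⟨h, _⟩ | ⟨h, _⟩
  · exact ⟨0, by simp [h]⟩
  · exact ⟨1, by simp [h]⟩

theorem patterns (hL : 0 < L) {μ : Measure (Fin N → Fin d → ℝ)}
    (hμ : Good d N L θ μ) (hm : 0 < m) (k : ℕ) (f : Fin k → (Fin d → Fin m) → (Fin d → ℝ) → ℝ)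
    (hf : ∀ u q, Measurable (f u q)) (h1 : ∀ u q y, |f u q y| ≤ 1) {δ : ℝ}
    (hδ0 : 0 ≤ δ) (hδ1 : δ ≤ 1) (hθ : 8 * θ ≤ δ ^ 2) :
    μ {x | ∃ u : (Fin d → Fin m) → Fin k,
      δ * N ≤ ∑ q, |∑ i, (pcell (L / m) q).indicator (f (u q) q) (x i) -
        N / L ^ d * ∫ y in pcell (L / m) q, f (u q) q y|} ≤
      ENNReal.ofReal ((2 * k) ^ (m ^ d) * Real.exp (-(δ ^ 2 * N / 8))) := by
  classical
  have hm0 : (0 : ℝ) < m := by exact_mod_cast hm
  have hℓ : 0 < L / m := by positivity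
  have hLd : 0 < L ^ d := by positivity
  let ι := (Fin d → Fin m) → Fin k × Fin 2
  let F : ι → (Fin d → Fin m) → (Fin d → ℝ) → ℝ := fun v q y =>
    (-1 : ℝ) ^ ((v q).2 : ℕ) * f (v q).1 q y
  let φ : ι → (Fin d → ℝ) → ℝ := fun v y => ∑ q, (pcell (L / m) q).indicator (F v q) y
  have hF1 : ∀ v q y, |F v q y| ≤ 1 := by
    intro v q y
    simp only [F]
    rw [abs_mul, abs_pow, abs_neg, abs_one, one_pow, one_mul]
    exact h1 _ _ _
  have hFm : ∀ v q, Measurable (F v q) := fun v q => (hf _ _).const_mul _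
  have hφm : ∀ v, Measurable (φ v) := fun v =>
    Finset.measurable_sum _ fun q _ => (hFm v q).indicator (pcell_meas _ q)
  have hφ1 : ∀ v y, |φ v y| ≤ 1 := fun v y => sum_ind_le hℓ _ (hF1 v) y
  have hmean : ∀ v, ∫ y in cube d L, φ v y =
      ∑ q, (-1 : ℝ) ^ ((v q).2 : ℕ) * ∫ y in pcell (L / m) q, f (v q).1 q y := by
    intro v
    simp only [φ]
    rw [integral_finsetSum]
    · refine Finset.sum_congr rfl fun q _ => ?_
      rw [setIntegral_indicator (pcell_meas _ q), Set.inter_eq_right.2 (cell_sub_cube hm hL q)]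
      simp only [F]
      rw [integral_const_mul]
    · intro q _
      refine intOn_bdd (b := 1) ((hFm v q).indicator (pcell_meas _ q)) fun y => ?_
      by_cases hy : y ∈ pcell (L / m) q
      · rw [Set.indicator_of_mem hy]
        exact hF1 _ _ _
      · rw [Set.indicator_of_notMem hy]
        simp
  have hsum : ∀ v (x : Fin N → Fin d → ℝ), ∑ i, φ v (x i) =
      ∑ q, (-1 : ℝ) ^ ((v q).2 : ℕ) *
        ∑ i, (pcell (L / m) q).indicator (f (v q).1 q) (x i) := by
    intro v x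
    simp only [φ]
    rw [Finset.sum_comm]
    refine Finset.sum_congr rfl fun q _ => ?_
    rw [Finset.mul_sum]
    refine Finset.sum_congr rfl fun i _ => ?_
    by_cases hx : x i ∈ pcell (L / m) q
    · simp only [Set.indicator_of_mem hx, F]
    · simp only [Set.indicator_of_notMem hx, mul_zero]
  let E : ι → Set (Fin N → Fin d → ℝ) := fun v =>
    {x | ((∫ y in cube d L, φ v y) / L ^ d + δ) * N ≤ ∑ i, φ v (x i)}
  have hE : ∀ v, μ (E v) ≤ ENNReal.ofReal (Real.exp (-(δ ^ 2 * N / 8))) := fun v =>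
    chernoff hL hμ (hφm v) (hφ1 v) rfl hδ0 hδ1 hθ
  have hsub : {x : Fin N → Fin d → ℝ | ∃ u : (Fin d → Fin m) → Fin k,
      δ * N ≤ ∑ q, |∑ i, (pcell (L / m) q).indicator (f (u q) q) (x i) -
        N / L ^ d * ∫ y in pcell (L / m) q, f (u q) q y|} ⊆
      ⋃ v ∈ (Finset.univ : Finset ι), E v := by
    rintro x ⟨u, hx⟩
    obtain ⟨σ, hσ⟩ : ∃ σ : (Fin d → Fin m) → Fin 2, ∀ q,
        |∑ i, (pcell (L / m) q).indicator (f (u q) q) (x i) -
          N / L ^ d * ∫ y in pcell (L / m) q, f (u q) q y| =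
        (-1 : ℝ) ^ (σ q : ℕ) * (∑ i, (pcell (L / m) q).indicator (f (u q) q) (x i) -
          N / L ^ d * ∫ y in pcell (L / m) q, f (u q) q y) :=
      ⟨fun q => (sign_dir _).choose, fun q => (sign_dir _).choose_spec⟩
    rw [mem_iUnion₂]
    refine ⟨fun q => (u q, σ q), Finset.mem_univ _, ?_⟩
    show ((∫ y in cube d L, φ _ y) / L ^ d + δ) * N ≤ ∑ i, φ _ (x i)
    rw [hmean, hsum]
    rw [Finset.sum_congr rfl fun q _ => hσ q] at hx
    simp_rw [mul_sub] at hx
    rw [Finset.sum_sub_distrib] at hx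
    have h2 : ∑ q : Fin d → Fin m, (-1 : ℝ) ^ (σ q : ℕ) *
        (N / L ^ d * ∫ y in pcell (L / m) q, f (u q) q y) =
        (∑ q : Fin d → Fin m, (-1 : ℝ) ^ (σ q : ℕ) * ∫ y in pcell (L / m) q, f (u q) q y) /
          L ^ d * N := by
      rw [Finset.sum_div, Finset.sum_mul]
      refine Finset.sum_congr rfl fun q _ => ?_
      ring
    rw [h2] at hx
    rw [add_mul]
    linarith
  refine (measure_mono hsub).trans ((measure_biUnion_finset_le _ _).trans ?_)
  refine (Finset.sum_le_sum fun v _ => hE v).trans ?_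
  rw [Finset.sum_const, nsmul_eq_mul, ← ENNReal.ofReal_natCast, ← ENNReal.ofReal_mul
    (Nat.cast_nonneg _)]
  refine ENNReal.ofReal_le_ofReal (le_of_eq ?_)
  congr 1
  rw [Finset.card_univ]
  simp only [ι, Fintype.card_fun, Fintype.card_prod, Fintype.card_fin]
  push_cast
  ring

end Pool.Agent.U279.KT
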