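import Pool.Agent.K4H61.HS.Fin2

/-!
The counting method of Kleitman and Winston for independent sets of weighted graphs.
-/

set_option autoImplicit false

open Finset

namespace Pool.Agent.U279.KT

open Pool.Agent.K4H61.HS (Ind th th_nonneg th_succ_ge th_mono th_eq)

variable {X : Type}

open Classical in
/-- the weighted number of independent subsets of `U` with `k` elements -/
noncomputable def icw (R : X → X → Prop) (w : X → ℝ) (U : Finset X) (k : ℕ) : ℝ :=
  ∑ I ∈ (U.powersetCard k).filter (Ind R), ∏ u ∈ I, w u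

theorem icw_nonneg (R : X → X → Prop) {w : X → ℝ} (hw : ∀ u, 0 ≤ w u) (U : Finset X) (k : ℕ) :
    0 ≤ icw R w U k := by
  unfold icw
  exact sum_nonneg fun I _ => prod_nonneg fun u _ => hw u

open Classical in
theorem icw_rec (R : X → X → Prop) (hrefl : ∀ u, R u u) {w : X → ℝ} (hw : ∀ u, 0 ≤ w u)
    (U : Finset X) (v : X) (M : ℕ) :
    icw R w U (M + 1) ≤ icw R w (U.erase v) (M + 1) +
      w v * icw R w (U.filter (fun u => ¬ R v u)) M := by
  unfold icw
  set A := (U.powersetCard (M + 1)).filter (Ind R) with hA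
  set B := ((U.erase v).powersetCard (M + 1)).filter (Ind R) with hB
  set C := ((U.filter (fun u => ¬ R v u)).powersetCard M).filter (Ind R) with hC
  have hvC : ∀ I ∈ C, v ∉ I := by
    intro I hI hv
    rw [hC, mem_filter, mem_powersetCard] at hI
    exact (mem_filter.1 (hI.1.1 hv)).2 (hrefl v)
  have hsub : A ⊆ B ∪ C.image (insert v) := by
    intro I hI
    rw [hA, mem_filter, mem_powersetCard] at hI
    obtain ⟨⟨hIU, hIc⟩, hI2⟩ := hI
    rw [mem_union]
    by_cases hv : v ∈ I
    · right
      rw [mem_image]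
      refine ⟨I.erase v, ?_, insert_erase hv⟩
      rw [hC, mem_filter, mem_powersetCard]
      refine ⟨⟨fun u hu => ?_, ?_⟩, fun u hu w hw => hI2 u (mem_of_mem_erase hu) w (mem_of_mem_erase hw)⟩
      · rw [mem_filter]
        exact ⟨hIU (mem_of_mem_erase hu), hI2 v hv u (mem_of_mem_erase hu) (ne_of_mem_erase hu).symm⟩
      · rw [card_erase_of_mem hv, hIc]; rfl
    · left
      rw [hB, mem_filter, mem_powersetCard]
      refine ⟨⟨fun u hu => mem_erase.2 ⟨fun h => hv (h ▸ hu), hIU hu⟩, hIc⟩, hI2⟩
  have hnn : ∀ I : Finset X, 0 ≤ ∏ u ∈ I, w u := fun I => prod_nonneg fun u _ => hw u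
  refine (sum_le_sum_of_subset_of_nonneg hsub fun I _ _ => hnn I).trans ?_
  have h1 := sum_union_inter (s₁ := B) (s₂ := C.image (insert v)) (f := fun I => ∏ u ∈ I, w u)
  have h2 : 0 ≤ ∑ I ∈ B ∩ C.image (insert v), ∏ u ∈ I, w u := sum_nonneg fun I _ => hnn I
  have h3 : ∑ I ∈ C.image (insert v), ∏ u ∈ I, w u = w v * ∑ I ∈ C, ∏ u ∈ I, w u := by
    rw [sum_image, mul_sum]
    · exact sum_congr rfl fun I hI => prod_insert (hvC I hI)
    · intro I hI J hJ hIJ
      rw [← erase_insert (hvC I hI), ← erase_insert (hvC J hJ)]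
      exact congrArg (fun K => K.erase v) hIJ
  rw [h3] at h1
  linarith

theorem icw_empty_succ (R : X → X → Prop) (w : X → ℝ) (M : ℕ) : icw R w ∅ (M + 1) = 0 := by
  unfold icw
  rw [powersetCard_eq_empty.2 (by simp)]
  simp

theorem pow_aux {b w : ℝ} (hb : 0 ≤ b) (hw : 0 ≤ w) (n : ℕ) :
    b ^ (n + 1) + (n + 1 : ℝ) * (w * b ^ n) ≤ (b + w) ^ (n + 1) := by
  induction n with
  | zero => simp
  | succ n ih =>
    have h1 : (b + w) ^ (n + 1 + 1) = (b + w) * (b + w) ^ (n + 1) := by ring
    rw [h1]
    have h2 : (b + w) * (b ^ (n + 1) + (n + 1 : ℝ) * (w * b ^ n)) ≤ (b + w) * (b + w) ^ (n + 1) :=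
      mul_le_mul_of_nonneg_left ih (by positivity)
    refine le_trans ?_ h2
    have h3 : (b + w) * (b ^ (n + 1) + (n + 1 : ℝ) * (w * b ^ n)) =
        b ^ (n + 1 + 1) + ((n : ℝ) + 1 + 1) * (w * b ^ (n + 1)) +
          (n + 1 : ℝ) * (w * w * b ^ n) := by
      ring
    rw [h3]
    push_cast
    have : 0 ≤ (n + 1 : ℝ) * (w * w * b ^ n) := by positivity
    linarith

theorem icw_le (R : X → X → Prop) (hrefl : ∀ u, R u u) {w : X → ℝ} (hw : ∀ u, 0 ≤ w u)
    (M : ℕ) (U : Finset X) : icw R w U M ≤ (∑ u ∈ U, w u) ^ M / M.factorial := by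
  classical
  induction hU : U.card using Nat.strong_induction_on generalizing U M with
  | _ n ihn =>
    rcases M with _ | M
    · unfold icw
      have : (U.powersetCard 0).filter (Ind R) = {∅} := by
        ext I
        simp only [mem_filter, mem_powersetCard, mem_singleton, card_eq_zero]
        constructor
        · rintro ⟨⟨-, h⟩, -⟩
          exact h
        · rintro rfl
          exact ⟨⟨empty_subset _, rfl⟩, fun u hu => by simp at hu⟩
      rw [this]
      simp
    rcases U.eq_empty_or_nonempty with rfl | hne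
    · rw [icw_empty_succ]
      simp
    obtain ⟨v, hv⟩ := hne
    have hn1 : 1 ≤ n := by rw [← hU]; exact card_pos.2 ⟨v, hv⟩
    have hrec := icw_rec R hrefl hw U v M
    have h1 := ihn (n - 1) (by omega) (M + 1) (U.erase v) (by rw [card_erase_of_mem hv, hU])
    have hle : (U.filter (fun u => ¬ R v u)) ⊆ U.erase v := by
      intro u hu
      rw [mem_filter] at hu
      exact mem_erase.2 ⟨fun h => hu.2 (h ▸ hrefl v), hu.1⟩
    have h2 := ihn (U.filter (fun u => ¬ R v u)).card
      (by
        have := card_le_card hle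
        rw [card_erase_of_mem hv, hU] at this
        omega) M (U.filter (fun u => ¬ R v u)) rfl
    set b := ∑ u ∈ U.erase v, w u with hb
    have hb0 : 0 ≤ b := sum_nonneg fun u _ => hw u
    have h3 : ∑ u ∈ U.filter (fun u => ¬ R v u), w u ≤ b :=
      sum_le_sum_of_subset_of_nonneg hle fun u _ _ => hw u
    have h4 : icw R w (U.filter (fun u => ¬ R v u)) M ≤ b ^ M / M.factorial :=
      h2.trans (div_le_div_of_nonneg_right
        (pow_le_pow_left₀ (sum_nonneg fun u _ => hw u) h3 _) (by positivity))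
    have h5 : ∑ u ∈ U, w u = b + w v := by
      rw [hb, sum_erase_add _ _ hv]
    have h6 := pow_aux hb0 (hw v) M
    have hF : (0 : ℝ) < M.factorial := by positivity
    rw [h5]
    refine hrec.trans ((add_le_add h1 (mul_le_mul_of_nonneg_left h4 (hw v))).trans ?_)
    have h7 : b ^ (M + 1) / (M + 1).factorial + w v * (b ^ M / M.factorial) =
        (b ^ (M + 1) + (M + 1 : ℝ) * (w v * b ^ M)) / (M + 1).factorial := by
      rw [Nat.factorial_succ]
      push_cast
      field_simp
    rw [h7]
    gcongr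

open Classical in
/-- **Kleitman–Winston for weighted graphs.** -/
theorem kww (R : X → X → Prop) (hrefl : ∀ u, R u u) {w : X → ℝ} (hw : ∀ u, 0 ≤ w u)
    (hw1 : ∀ u, w u ≤ 1) (q s : ℝ) (hq : 0 < q) (hs : 0 ≤ s) (U0 : Finset X)
    (h : ∀ U ⊆ U0, U.Nonempty → ∃ v ∈ U, (1 - q) * (∑ u ∈ U, w u) - s ≤
      ∑ u ∈ U.filter (fun u => R v u), w u) :
    ∀ j K : ℕ, ∀ U ⊆ U0, icw R w U (j + K) ≤
      q ^ (j.choose 2 + j * K) * ((∑ u ∈ U, w u) + th q s j) ^ (j + K) /
        ((j + K).factorial : ℝ) := by
  intro j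
  induction j with
  | zero =>
    intro K U _
    have h1 := icw_le R hrefl hw (0 + K) U
    simpa only [Nat.choose_zero_succ, zero_mul, add_zero, pow_zero, one_mul, th, zero_add] using h1
  | succ j ih =>
    intro K U
    induction hU : U.card using Nat.strong_induction_on generalizing U with
    | _ n ihn =>
      intro hU0
      have hM : j + 1 + K = (j + K) + 1 := by ring
      rw [hM]
      have hth := th_succ_ge hq hs j
      have hth0 := th_nonneg hq hs j
      rcases U.eq_empty_or_nonempty with rfl | hne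
      · rw [icw_empty_succ]
        have := th_nonneg hq hs (j + 1)
        simp only [sum_empty]
        positivity
      obtain ⟨v, hv, hdeg⟩ := h U hU0 hne
      have hn1 : 1 ≤ n := by rw [← hU]; exact card_pos.2 hne
      have hrec := icw_rec R hrefl hw U v (j + K)
      have h1 := ihn (n - 1) (by omega) (U.erase v) (by rw [card_erase_of_mem hv, hU])
        ((erase_subset _ _).trans hU0)
      rw [hM] at h1
      have h2 := ih K (U.filter (fun u => ¬ R v u)) ((filter_subset _ _).trans hU0)
      set W : ℝ := ∑ u ∈ U, w u with hW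
      have hcard : (∑ u ∈ U.filter (fun u => ¬ R v u), w u) ≤ q * W + s := by
        have h3 := sum_filter_add_sum_filter_not U (fun u => R v u) w
        rw [← hW] at h3
        linarith
      have hWv : ∑ u ∈ U.erase v, w u = W - w v := by
        rw [hW, ← sum_erase_add _ _ hv]
        ring
      have hWv0 : 0 ≤ W - w v := by
        rw [← hWv]
        exact sum_nonneg fun u _ => hw u
      rw [hWv] at h1
      set a : ℝ := W + th q s (j + 1) with ha
      set b : ℝ := W - w v + th q s (j + 1) with hb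
      have hab : a = b + w v := by rw [ha, hb]; ring
      have hb0 : 0 ≤ b := by rw [hb]; linarith
      have hE : (j + 1).choose 2 + (j + 1) * K = (j.choose 2 + j * K) + (j + K) := by
        have : (j + 1).choose 2 = j.choose 2 + j := by
          rw [Nat.choose_succ_succ' j 1, Nat.choose_one_right]; ring
        rw [this]; ring
      have hfn : 0 ≤ ∑ u ∈ U.filter (fun u => ¬ R v u), w u := sum_nonneg fun u _ => hw u
      have h3 : icw R w (U.filter (fun u => ¬ R v u)) (j + K) ≤
          q ^ ((j + 1).choose 2 + (j + 1) * K) * b ^ (j + K) / ((j + K).factorial : ℝ) := by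
        refine h2.trans ?_
        have h5 : (∑ u ∈ U.filter (fun u => ¬ R v u), w u) + th q s j ≤ q * b := by
          have h6 : q * b = q * (1 - w v) + (q * W + s + th q s j) := by
            rw [hb]
            simp only [th]
            field_simp
            ring
          have h7 : 0 ≤ q * (1 - w v) := mul_nonneg hq.le (by linarith [hw1 v])
          rw [h6]; linarith
        have h6 : ((∑ u ∈ U.filter (fun u => ¬ R v u), w u) + th q s j) ^ (j + K) ≤
            q ^ (j + K) * b ^ (j + K) := by
          rw [← mul_pow]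
          exact pow_le_pow_left₀ (by linarith) h5 _
        have h7 : q ^ ((j + 1).choose 2 + (j + 1) * K) * b ^ (j + K) =
            q ^ (j.choose 2 + j * K) * (q ^ (j + K) * b ^ (j + K)) := by
          rw [hE, pow_add, mul_assoc]
        rw [h7]
        exact div_le_div_of_nonneg_right (mul_le_mul_of_nonneg_left h6 (by positivity))
          (by positivity)
      have h4 : icw R w (U.erase v) (j + K + 1) ≤
          q ^ ((j + 1).choose 2 + (j + 1) * K) * b ^ (j + K + 1) / ((j + K + 1).factorial : ℝ) := h1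
      have h5 : icw R w U (j + K + 1) ≤
          q ^ ((j + 1).choose 2 + (j + 1) * K) * b ^ (j + K + 1) / ((j + K + 1).factorial : ℝ) +
          w v * (q ^ ((j + 1).choose 2 + (j + 1) * K) * b ^ (j + K) / ((j + K).factorial : ℝ)) :=
        hrec.trans (add_le_add h4 (mul_le_mul_of_nonneg_left h3 (hw v)))
      refine h5.trans ?_
      have hfac : ((j + K + 1).factorial : ℝ) = (j + K + 1 : ℝ) * ((j + K).factorial : ℝ) := by
        rw [Nat.factorial_succ]; push_cast; ring
      have hF : (0 : ℝ) < ((j + K).factorial : ℝ) := by positivity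
      have hF1 : (0 : ℝ) < (j + K + 1 : ℝ) := by positivity
      have hkey : b ^ (j + K + 1) + (j + K + 1 : ℝ) * (w v * b ^ (j + K)) ≤ a ^ (j + K + 1) := by
        rw [hab]
        have := pow_aux hb0 (hw v) (j + K)
        push_cast at this ⊢
        exact this
      have hqp : 0 ≤ q ^ ((j + 1).choose 2 + (j + 1) * K) := by positivity
      rw [hfac]
      have e1 : q ^ ((j + 1).choose 2 + (j + 1) * K) * b ^ (j + K + 1) /
            ((j + K + 1 : ℝ) * ((j + K).factorial : ℝ)) +
          w v * (q ^ ((j + 1).choose 2 + (j + 1) * K) * b ^ (j + K) / ((j + K).factorial : ℝ)) =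
          q ^ ((j + 1).choose 2 + (j + 1) * K) *
            (b ^ (j + K + 1) + (j + K + 1 : ℝ) * (w v * b ^ (j + K))) /
            ((j + K + 1 : ℝ) * ((j + K).factorial : ℝ)) := by
        field_simp
      rw [e1]
      gcongr

open Classical in
/-- the upper bound for the weighted number of independent sets -/
theorem fin_upper [Fintype X] (R : X → X → Prop) (hrefl : ∀ u, R u u) {w : X → ℝ}
    (hw : ∀ u, 0 ≤ w u) (hw1 : ∀ u, w u ≤ 1) (q s T : ℝ) (N : ℕ)
    (hq0 : 0 < q) (hq1 : q < 1) (hs : 0 ≤ s)
    (hKW : ∀ U : Finset X, U.Nonempty → ∃ v ∈ U, (1 - q) * (∑ u ∈ U, w u) - s ≤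
      ∑ u ∈ U.filter (fun u => R v u), w u)
    (hT : N * ((1 - q) / q) ≤ T) (hn0 : 0 < ∑ u, w u) :
    icw R w univ N * (N.factorial : ℝ) ≤ (∑ u, w u) ^ N *
      Real.exp (-((1 - q) * (N * (N - 1) / 2)) +
        N * ((1 + s) / ((1 - q) * ∑ u, w u) * Real.exp T)) := by
  set n : ℝ := ∑ u, w u with hn'
  have hκ0 : 0 < 1 - q := by linarith
  have hkw := kww R hrefl hw hw1 q s hq0 hs univ (fun U _ hU => hKW U hU) N 0 univ (Subset.refl _)
  simp only [add_zero, mul_zero] at hkw
  rw [← hn'] at hkw
  have hth := th_bound' hq0 hq1 hs N hT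
  have hth0 : 0 ≤ th q s N := th_nonneg hq0 hs N
  have h1 : icw R w univ N * (N.factorial : ℝ) ≤
      n ^ N * (q ^ (N.choose 2) * (1 + th q s N / n) ^ N) := by
    rw [le_div_iff₀ (by positivity)] at hkw
    refine hkw.trans (le_of_eq ?_)
    have : n + th q s N = n * (1 + th q s N / n) := by field_simp
    rw [this, mul_pow]
    ring
  have h2 : q ^ (N.choose 2) ≤ Real.exp (-((1 - q) * (N * (N - 1) / 2))) := by
    have h1 : q ≤ Real.exp (-(1 - q)) := by
      have := Real.add_one_le_exp (-(1 - q)); linarith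
    calc q ^ (N.choose 2) ≤ Real.exp (-(1 - q)) ^ (N.choose 2) := pow_le_pow_left₀ hq0.le h1 _
      _ = Real.exp (-((1 - q) * (N * (N - 1) / 2))) := by
        rw [← Real.exp_nat_mul, Nat.cast_choose_two]
        congr 1; ring
  set E := (1 + s) / ((1 - q) * n) * Real.exp T with hE
  have hthn : th q s N / n ≤ E := by
    rw [hE, div_le_iff₀ hn0]
    refine hth.trans (le_of_eq ?_)
    field_simp
  have h3 : (1 + th q s N / n) ^ N ≤ Real.exp (N * E) := by
    rw [Real.exp_nat_mul]
    refine pow_le_pow_left₀ (by positivity) ?_ N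
    have := Real.add_one_le_exp E
    linarith
  refine h1.trans ?_
  rw [Real.exp_add]
  gcongr
where
  th_bound' {q s T : ℝ} (hq0 : 0 < q) (hq1 : q < 1) (hs : 0 ≤ s) (M : ℕ)
      (hM : M * ((1 - q) / q) ≤ T) : th q s M ≤ (1 + s) / (1 - q) * Real.exp T := by
    rw [th_eq hq0 hq1]
    have h1 : (1 / q) ^ M ≤ Real.exp T := by
      have h2 : 1 / q ≤ Real.exp ((1 - q) / q) := by
        have := Real.add_one_le_exp ((1 - q) / q)
        have h3 : (1 - q) / q + 1 = 1 / q := by field_simp; ring
        linarith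
      calc (1 / q) ^ M ≤ Real.exp ((1 - q) / q) ^ M := pow_le_pow_left₀ (by positivity) h2 M
        _ = Real.exp (M * ((1 - q) / q)) := by rw [← Real.exp_nat_mul]
        _ ≤ Real.exp T := Real.exp_le_exp.2 hM
    have h0 : 0 < 1 - q := by linarith
    rw [div_mul_eq_mul_div]
    refine div_le_div_of_nonneg_right ?_ h0.le
    calc (q + s) * ((1 / q) ^ M - 1) ≤ (q + s) * Real.exp T := by
          refine mul_le_mul_of_nonneg_left (by linarith) (by linarith)
      _ ≤ (1 + s) * Real.exp T := by
          refine mul_le_mul_of_nonneg_right (by linarith) (Real.exp_pos _).le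

end Pool.Agent.U279.KT
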