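import Pool.Agent.K4H61.HS.Asym

/-!
Some closed neighbourhood has a large weight.
-/

set_option autoImplicit false

open MeasureTheory Set

namespace Pool.Agent.U279.KT

open Pool.Agent.K4H61.HS

variable {d m : ℕ}

/-- the function with the value `w c` in the cell `c` -/
noncomputable def gw (h : ℝ) (U : Finset (Fin d → Fin m)) (w : (Fin d → Fin m) → ℝ) (x : ES d) : ℝ :=
  ∑ c ∈ U, w c * i1 (cell h c) x

theorem cell_lt {h : ℝ} (hh : 0 < h) (c : Fin d → Fin m) : volume (cell h c) < ⊤ := by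
  rw [cell_vol hh]
  exact ENNReal.ofReal_lt_top

theorem gw_memLp {h : ℝ} (hh : 0 < h) (U : Finset (Fin d → Fin m)) (w : (Fin d → Fin m) → ℝ) :
    MemLp (gw h U w) 2 volume := by
  unfold gw
  exact memLp_finsetSum _ fun c _ => (i1_memLp _ (cell_meas h c) (cell_lt hh c)).const_mul _

theorem gw_integrable {h : ℝ} (hh : 0 < h) (U : Finset (Fin d → Fin m))
    (w : (Fin d → Fin m) → ℝ) : Integrable (gw h U w) := by
  unfold gw
  exact integrable_finsetSum _ fun c _ =>
    (i1_integrable _ (cell_meas h c) (cell_lt hh c)).const_mul _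

theorem i1_cell_int {h : ℝ} (hh : 0 < h) (c : Fin d → Fin m) :
    ∫ x, i1 (cell h c) x = h ^ d := by
  rw [i1_integral _ (cell_meas h c), cell_vol hh, ENNReal.toReal_ofReal (by positivity)]

theorem gw_int {h : ℝ} (hh : 0 < h) (U : Finset (Fin d → Fin m)) (w : (Fin d → Fin m) → ℝ) :
    ∫ x, gw h U w x = (∑ c ∈ U, w c) * h ^ d := by
  unfold gw
  rw [integral_finsetSum _ fun c _ =>
    (i1_integrable _ (cell_meas h c) (cell_lt hh c)).const_mul _, Finset.sum_mul]
  refine Finset.sum_congr rfl fun c _ => ?_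
  rw [integral_const_mul, i1_cell_int hh]

theorem gw_zero {h : ℝ} {U : Finset (Fin d → Fin m)} {w : (Fin d → Fin m) → ℝ} {x : ES d}
    (hx : x ∉ cells h U) : gw h U w x = 0 := by
  unfold gw
  refine Finset.sum_eq_zero fun c hc => ?_
  rw [i1_nmem, mul_zero]
  intro h1
  apply hx
  unfold cells
  simp only [mem_iUnion, exists_prop]
  exact ⟨c, hc, h1⟩

theorem gw_val {h : ℝ} (hh : 0 < h) {U : Finset (Fin d → Fin m)} {w : (Fin d → Fin m) → ℝ}
    {x : ES d} {c : Fin d → Fin m} (hc : c ∈ U) (hx : x ∈ cell h c) : gw h U w x = w c := by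
  unfold gw
  rw [Finset.sum_eq_single c, i1_mem hx, mul_one]
  · intro c' _ hne
    rw [i1_nmem, mul_zero]
    intro h1
    exact (cell_disj hh hne).le_bot ⟨h1, hx⟩
  · exact fun h => absurd hc h

theorem gw_sq {h : ℝ} (hh : 0 < h) (U : Finset (Fin d → Fin m)) {w : (Fin d → Fin m) → ℝ}
    (hw0 : ∀ c, 0 ≤ w c) (hw1 : ∀ c, w c ≤ 1) (x : ES d) :
    0 ≤ gw h U w x ∧ gw h U w x ^ 2 ≤ gw h U w x := by
  by_cases hx : x ∈ cells h U
  · unfold cells at hx
    simp only [mem_iUnion, exists_prop] at hx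
    obtain ⟨c, hc, hxc⟩ := hx
    rw [gw_val hh hc hxc]
    have h0 := hw0 c
    have h1 := hw1 c
    exact ⟨h0, by nlinarith⟩
  · rw [gw_zero hx]
    norm_num

/-- the form of a function which is supported well inside `T` -/
theorem AA_left (r : ℝ) (g : ES d → ℝ) (T : Set (ES d)) (hg : Integrable g)
    (hball : ∀ x, g x ≠ 0 → Metric.ball x r ⊆ T) :
    AA r g (i1 T) = (volume (Metric.ball (0 : ES d) r)).toReal * ∫ x, g x := by
  rw [← (kr_mul_left r g hg).2]
  unfold AA
  refine integral_congr_ae (Filter.Eventually.of_forall fun p => ?_)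
  dsimp only
  by_cases hp : g p.1 = 0
  · rw [hp]; ring
  · unfold kr
    by_cases hk : dist p.1 p.2 < r
    · rw [if_pos hk, i1_mem (hball _ hp (by rw [Metric.mem_ball']; exact hk)), mul_one]
    · rw [if_neg hk, zero_mul, zero_mul]

theorem AA_right (r : ℝ) (g : ES d → ℝ) (T : Set (ES d)) (hg : Integrable g)
    (hball : ∀ x, g x ≠ 0 → Metric.ball x r ⊆ T) :
    AA r (i1 T) g = (volume (Metric.ball (0 : ES d) r)).toReal * ∫ x, g x := by
  rw [← (kr_mul_right r g hg).2]
  unfold AA
  refine integral_congr_ae (Filter.Eventually.of_forall fun p => ?_)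
  dsimp only
  by_cases hp : g p.2 = 0
  · rw [hp]; ring
  · unfold kr
    by_cases hk : dist p.1 p.2 < r
    · rw [if_pos hk, i1_mem (hball _ hp (by rw [Metric.mem_ball]; exact hk)), one_mul]
    · rw [if_neg hk, zero_mul, zero_mul]

theorem AA_gw (s h : ℝ) (hh : 0 < h) (hs : √d * h < s) (U : Finset (Fin d → Fin m))
    {w : (Fin d → Fin m) → ℝ} (hw0 : ∀ c, 0 ≤ w c)
    (P : Finset ((Fin d → Fin m) × (Fin d → Fin m)))
    (hP : ∀ v ∈ U, ∀ u ∈ U, near h s v u → (v, u) ∈ P) :
    AA (s - √d * h) (gw h U w) (gw h U w) ≤ (∑ q ∈ P, w q.1 * w q.2) * (h ^ d) ^ 2 := by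
  have hUm := gw_memLp hh U w
  have hs0 : 0 < s := lt_of_le_of_lt (by positivity) hs
  have hci : ∀ c : Fin d → Fin m, Integrable (i1 (cell h c)) := fun c =>
    i1_integrable _ (cell_meas h c) (cell_lt hh c)
  have hprod : ∀ q : (Fin d → Fin m) × (Fin d → Fin m), Integrable
      (fun p : ES d × ES d => w q.1 * w q.2 * (i1 (cell h q.1) p.1 * i1 (cell h q.2) p.2))
        (volume.prod volume) :=
    fun q => ((hci q.1).mul_prod (hci q.2)).const_mul _
  have h1 : (∑ q ∈ P, w q.1 * w q.2) * (h ^ d) ^ 2 = ∫ p : ES d × ES d, ∑ q ∈ P,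
      w q.1 * w q.2 * (i1 (cell h q.1) p.1 * i1 (cell h q.2) p.2) ∂(volume.prod volume) := by
    rw [integral_finsetSum _ fun q _ => hprod q, Finset.sum_mul]
    refine Finset.sum_congr rfl fun q _ => ?_
    rw [integral_const_mul, integral_prod_mul, i1_cell_int hh, i1_cell_int hh, sq]
  rw [h1]
  unfold AA
  refine integral_mono (AA_integrable _ _ _ hUm hUm) (integrable_finsetSum _ fun q _ => hprod q)
    fun p => ?_
  dsimp only
  have hnn : ∀ q ∈ P, 0 ≤ w q.1 * w q.2 * (i1 (cell h q.1) p.1 * i1 (cell h q.2) p.2) :=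
    fun q _ => mul_nonneg (mul_nonneg (hw0 _) (hw0 _)) (mul_nonneg (i1_nonneg _ _) (i1_nonneg _ _))
  by_cases hp1 : p.1 ∈ cells h U
  · by_cases hp2 : p.2 ∈ cells h U
    · unfold cells at hp1 hp2
      simp only [mem_iUnion, exists_prop] at hp1 hp2
      obtain ⟨v, hv, hxv⟩ := hp1
      obtain ⟨u, hu, hxu⟩ := hp2
      rw [gw_val hh hv hxv, gw_val hh hu hxu]
      unfold kr
      by_cases hk : dist p.1 p.2 < s - √d * h
      · rw [if_pos hk, one_mul]
        have hnear : near h s v u := by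
          rw [near_iff hs0]
          have h3 := cell_dist hh hxv hxu
          rw [dist_eq_norm] at hk
          have h4 : corner h v - corner h u =
            (p.1 - p.2) - ((p.1 - p.2) - (corner h v - corner h u)) := by abel
          calc ‖corner h v - corner h u‖ ≤
              ‖p.1 - p.2‖ + ‖(p.1 - p.2) - (corner h v - corner h u)‖ := by
                conv_lhs => rw [h4]
                exact norm_sub_le _ _
            _ < s := by linarith
        have h5 := Finset.single_le_sum hnn (hP v hv u hu hnear)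
        dsimp only at h5
        rw [i1_mem hxv, i1_mem hxu, mul_one, mul_one] at h5
        exact h5
      · rw [if_neg hk, zero_mul]
        exact Finset.sum_nonneg hnn
    · rw [gw_zero hp2, mul_zero, mul_zero]
      exact Finset.sum_nonneg hnn
  · rw [gw_zero hp1, zero_mul, mul_zero]
    exact Finset.sum_nonneg hnn

open Classical in
theorem exists_large_w (hd : 1 ≤ d) (s h : ℝ) (hh : 0 < h) (hs : √d * h < s)
    {w : (Fin d → Fin m) → ℝ} (hw0 : ∀ c, 0 ≤ w c) (hw1 : ∀ c, w c ≤ 1)
    (U : Finset (Fin d → Fin m)) (hU : U.Nonempty) : ∃ v ∈ U,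
      bv d (s - √d * h) * ((∑ u ∈ U, w u) / (m * h + 2 * s) ^ d - eps d / h ^ d) ≤
        ∑ u ∈ U.filter (fun u => near h s v u), w u := by
  have hs0 : 0 < s - √d * h := by linarith
  have hsp : 0 < s := lt_of_le_of_lt (by positivity) hs
  obtain ⟨s0, hs0'⟩ : ∃ s0, s0 = s - √d * h := ⟨_, rfl⟩
  rw [← hs0'] at hs0 ⊢
  set V := bv d s0 with hV
  have hVe : V = (volume (Metric.ball (0 : ES d) s0)).toReal := bv_eq d hs0
  have hV0 : 0 < V := bv_pos d hs0
  have heps : 0 < eps d := eps_pos d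
  set g : ES d → ℝ := gw h U w with hg
  set W : Set (ES d) := bigW d m h s0 with hW
  have hWm : MeasurableSet W := bigW_meas h s0
  have hWv' : volume W = ENNReal.ofReal ((m * h + 2 * s0) ^ d) := bigW_vol hh hs0
  have hWv : volume W < ⊤ := by rw [hWv']; exact ENNReal.ofReal_lt_top
  set σ : ℝ := ∑ u ∈ U, w u with hσ
  have hσ0 : 0 ≤ σ := Finset.sum_nonneg fun u _ => hw0 u
  set a : ℝ := σ * h ^ d with ha
  have hga : ∫ x, g x = a := gw_int hh U w
  set b : ℝ := (m * h + 2 * s0) ^ d with hb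
  have hb0 : 0 < b := by rw [hb]; positivity
  have hWb : (volume W).toReal = b := by rw [hWv', ENNReal.toReal_ofReal hb0.le]
  have ha0 : 0 ≤ a := by rw [ha]; positivity
  set α := a / b with hα
  have hg2 : MemLp g 2 volume := gw_memLp hh U w
  have hgi : Integrable g := gw_integrable hh U w
  have hW2 := i1_memLp W hWm hWv
  have hball : ∀ x, g x ≠ 0 → Metric.ball x s0 ⊆ W := by
    intro x hx
    refine cells_ball hh U x ?_
    by_contra hcon
    exact hx (gw_zero hcon)
  have hAW : ∀ x, g x ≠ 0 → x ∈ W := fun x hx => hball x hx (Metric.mem_ball_self hs0)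
  set f : ES d → ℝ := fun x => g x - α * i1 W x with hf
  have hf2 : MemLp f 2 volume := hg2.sub (hW2.const_mul α)
  have hq := quad_L2 s0 (eps d * V) (by positivity) (fun ξ => by
    have := ball_cos d hd s0 hs0 ξ
    linarith) f hf2
  have hff : AA s0 f f = AA s0 g g - α * AA s0 g (i1 W) - α * AA s0 (i1 W) g
      + α ^ 2 * AA s0 (i1 W) (i1 W) := by
    unfold AA
    rw [← integral_const_mul, ← integral_const_mul, ← integral_const_mul, ← integral_sub,
      ← integral_sub, ← integral_add]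
    · refine integral_congr_ae (Filter.Eventually.of_forall fun p => ?_)
      rw [hf]
      dsimp only
      ring
    · exact ((AA_integrable s0 _ _ hg2 hg2).sub ((AA_integrable s0 _ _ hg2 hW2).const_mul _)).sub
        ((AA_integrable s0 _ _ hW2 hg2).const_mul _)
    · exact (AA_integrable s0 _ _ hW2 hW2).const_mul _
    · exact (AA_integrable s0 _ _ hg2 hg2).sub ((AA_integrable s0 _ _ hg2 hW2).const_mul _)
    · exact (AA_integrable s0 _ _ hW2 hg2).const_mul _
    · exact (AA_integrable s0 _ _ hg2 hg2)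
    · exact (AA_integrable s0 _ _ hg2 hW2).const_mul _
  have hsq : ∫ x, f x ^ 2 ≤ a - a ^ 2 / b := by
    have h1 : ∀ x, f x ^ 2 ≤ (1 - 2 * α) * g x + α ^ 2 * i1 W x := by
      intro x
      rw [hf]
      dsimp only
      have h2 := (gw_sq hh U hw0 hw1 x).2
      rw [← hg] at h2
      by_cases hx : g x = 0
      · rw [hx]
        by_cases hx' : x ∈ W
        · rw [i1_mem hx']; nlinarith
        · rw [i1_nmem hx']; nlinarith
      · rw [i1_mem (hAW x hx)]
        nlinarith
    refine (integral_mono hf2.integrable_sq ((hgi.const_mul _).add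
      ((i1_integrable W hWm hWv).const_mul _)) h1).trans (le_of_eq ?_)
    simp only [Pi.add_apply]
    rw [integral_add (hgi.const_mul _) ((i1_integrable W hWm hWv).const_mul _),
      integral_const_mul, integral_const_mul, hga, i1_integral W hWm, hWb, hα]
    field_simp
    ring
  have e1 := AA_left s0 g W hgi hball
  have e2 := AA_right s0 g W hgi hball
  have e3 := AA_ind_le s0 W hWm hWv
  rw [← hVe, hga] at e1 e2
  rw [← hVe, hWb] at e3
  rw [hff, e1, e2] at hq
  set P : Finset ((Fin d → Fin m) × (Fin d → Fin m)) :=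
    (U ×ˢ U).filter (fun p => near h s p.1 p.2) with hP
  have e4 := AA_gw s h hh hs U hw0 P (fun v hv u hu hn => by
    rw [hP, Finset.mem_filter, Finset.mem_product]
    exact ⟨⟨hv, hu⟩, hn⟩)
  rw [← hs0', ← hg] at e4
  have hα2 : α ^ 2 * AA s0 (i1 W) (i1 W) ≤ α ^ 2 * (V * b) :=
    mul_le_mul_of_nonneg_left e3 (by positivity)
  have h5 : α ^ 2 * (V * b) = V * (a ^ 2 / b) := by
    rw [hα]; field_simp
  have h6 : α * (V * a) = V * (a ^ 2 / b) := by
    rw [hα]; field_simp
  rw [h6] at hq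
  have h7 : V * (a ^ 2 / b) - eps d * V * a ≤ (∑ q ∈ P, w q.1 * w q.2) * (h ^ d) ^ 2 := by
    have h8 : 0 ≤ eps d * V * (a ^ 2 / b) := by positivity
    have h9 : -(eps d * V) * (a - a ^ 2 / b) ≤ -(eps d * V) * ∫ x, f x ^ 2 := by
      have h10 : 0 ≤ eps d * V := by positivity
      nlinarith
    have h10 : -(eps d * V) * (a - a ^ 2 / b) = -(eps d * V * a) + eps d * V * (a ^ 2 / b) := by
      ring
    rw [h10] at h9
    linarith
  have hbb : b ≤ (m * h + 2 * s) ^ d := by
    rw [hb]
    refine pow_le_pow_left₀ (by positivity) ?_ d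
    have : s0 ≤ s := by rw [hs0']; have : 0 ≤ √d * h := by positivity
                        linarith
    linarith
  set b' := (m * h + 2 * s) ^ d with hb'
  have hb'0 : 0 < b' := lt_of_lt_of_le hb0 hbb
  have h10 : V * (a ^ 2 / b') ≤ V * (a ^ 2 / b) := by gcongr
  have hPc : (∑ q ∈ P, w q.1 * w q.2) =
      ∑ v ∈ U, w v * ∑ u ∈ U.filter (fun u => near h s v u), w u := by
    rw [hP, Finset.sum_filter, Finset.sum_product]
    refine Finset.sum_congr rfl fun v _ => ?_
    rw [Finset.sum_filter, Finset.mul_sum]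
    refine Finset.sum_congr rfl fun u _ => ?_
    simp only
    split_ifs <;> simp
  have hhd : 0 < h ^ d := by positivity
  set κ := V * (σ / b' - eps d / h ^ d) with hκ
  have h11 : σ * κ ≤ ∑ v ∈ U, w v * ∑ u ∈ U.filter (fun u => near h s v u), w u := by
    rw [← hPc]
    have h12 : (σ * κ) * (h ^ d) ^ 2 = V * (a ^ 2 / b') - eps d * V * a := by
      rw [ha, hκ]
      field_simp
    have h13 : (σ * κ) * (h ^ d) ^ 2 ≤ (∑ q ∈ P, w q.1 * w q.2) * (h ^ d) ^ 2 := by
      rw [h12]; linarith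
    exact le_of_mul_le_mul_right h13 (by positivity)
  by_contra hcon
  push Not at hcon
  obtain ⟨v0, hv0⟩ := hU
  by_cases hσ1 : σ = 0
  · have h12 := hcon v0 hv0
    have h13 : 0 ≤ ∑ u ∈ U.filter (fun u => near h s v0 u), w u :=
      Finset.sum_nonneg fun u _ => hw0 u
    have h14 : κ ≤ 0 := by
      rw [hκ, hσ1]
      have : 0 < eps d / h ^ d := by positivity
      have h15 : V * (0 / b' - eps d / h ^ d) = -(V * (eps d / h ^ d)) := by ring
      rw [h15]
      have := mul_pos hV0 this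
      linarith
    linarith
  · have hσ2 : 0 < σ := lt_of_le_of_ne hσ0 (Ne.symm hσ1)
    obtain ⟨v1, hv1, hv2⟩ : ∃ v ∈ U, 0 < w v := by
      by_contra h12
      push Not at h12
      have h13 : σ ≤ 0 := by
        rw [hσ]
        exact Finset.sum_nonpos h12
      linarith
    have h12 : ∑ v ∈ U, w v * ∑ u ∈ U.filter (fun u => near h s v u), w u < ∑ v ∈ U, w v * κ := by
      refine Finset.sum_lt_sum (fun v hv => mul_le_mul_of_nonneg_left (hcon v hv).le (hw0 v)) ?_
      exact ⟨v1, hv1, mul_lt_mul_of_pos_left (hcon v1 hv1) hv2⟩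
    rw [← Finset.sum_mul, ← hσ] at h12
    linarith

open Classical in
theorem KW_near_w (hd : 1 ≤ d) (s h : ℝ) (hh : 0 < h) (hs : √d * h < s)
    {w : (Fin d → Fin m) → ℝ} (hw0 : ∀ c, 0 ≤ w c) (hw1 : ∀ c, w c ≤ 1) :
    ∀ U : Finset (Fin d → Fin m), U.Nonempty → ∃ v ∈ U,
      (1 - (1 - bv d (s - √d * h) / (m * h + 2 * s) ^ d)) * (∑ u ∈ U, w u) -
        bv d (s - √d * h) * eps d / h ^ d ≤ ∑ u ∈ U.filter (fun u => near h s v u), w u := by
  intro U hU
  obtain ⟨v, hv, h1⟩ := exists_large_w hd s h hh hs hw0 hw1 U hU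
  refine ⟨v, hv, le_trans (le_of_eq ?_) h1⟩
  ring

end Pool.Agent.U279.KT
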