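import Pool.Agent.K4H61.HS.Conf
import Pool.Agent.U279.KT.Comb
import Pool.Agent.U279.KT.Large

/-!
Weighted discretisation of the space of configurations of hard spheres.
-/

set_option autoImplicit false
open MeasureTheory Set

namespace Pool.Agent.U279.KT
open Pool.Agent.K4H61.HS

open Classical in
theorem tuples_w {X : Type} [Fintype X] (R : X → X → Prop) (hrefl : ∀ u, R u u) (w : X → ℝ)
    (N : ℕ) :
    ∑ c ∈ Finset.univ.filter (fun c : Fin N → X => ∀ i j, i ≠ j → ¬ R (c i) (c j)),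
      ∏ i, w (c i) = N.factorial * icw R w Finset.univ N := by
  set T := Finset.univ.filter (fun c : Fin N → X => ∀ i j, i ≠ j → ¬ R (c i) (c j)) with hT
  have hinj : ∀ c ∈ T, Function.Injective c := by
    intro c hc i j hij
    by_contra hne
    rw [hT, Finset.mem_filter] at hc
    exact hc.2 i j hne (hij ▸ hrefl _)
  have h1 : ∀ c ∈ T, Finset.univ.image c ∈ (Finset.powersetCard N Finset.univ).filter (Ind R) := by
    intro c hc
    rw [Finset.mem_filter, Finset.mem_powersetCard]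
    refine ⟨⟨Finset.subset_univ _, ?_⟩, ?_⟩
    · rw [Finset.card_image_of_injective _ (hinj c hc), Finset.card_univ, Fintype.card_fin]
    · intro u hu v hv huv
      rw [Finset.mem_image] at hu hv
      obtain ⟨i, _, rfl⟩ := hu
      obtain ⟨j, _, rfl⟩ := hv
      rw [hT, Finset.mem_filter] at hc
      exact hc.2 i j (fun h => huv (by rw [h]))
  rw [← Finset.sum_fiberwise_of_maps_to h1]
  unfold icw
  rw [Finset.mul_sum]
  refine Finset.sum_congr rfl fun I hI => ?_
  rw [Finset.mem_filter, Finset.mem_powersetCard] at hI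
  obtain ⟨⟨_, hIc⟩, hI2⟩ := hI
  have h2 : (T.filter (fun c => Finset.univ.image c = I)).card = N.factorial := by
    have h3 : (Finset.univ : Finset (Fin N ↪ I)).card = N.factorial := by
      rw [Finset.card_univ, Fintype.card_embedding_eq, Fintype.card_coe, hIc, Fintype.card_fin,
        Nat.descFactorial_self]
    rw [← h3]
    symm
    refine Finset.card_bij (fun e _ => fun i => ((e i : I) : X)) ?_ ?_ ?_
    · intro e _
      rw [Finset.mem_filter, hT, Finset.mem_filter]
      have hcinj : Function.Injective (fun i => ((e i : I) : X)) :=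
        Subtype.val_injective.comp e.injective
      refine ⟨⟨Finset.mem_univ _, fun i j hij => ?_⟩, ?_⟩
      · exact hI2 _ (e i).2 _ (e j).2 (fun h => hij (hcinj h))
      · refine Finset.eq_of_subset_of_card_le ?_ ?_
        · intro x hx
          rw [Finset.mem_image] at hx
          obtain ⟨i, _, rfl⟩ := hx
          exact (e i).2
        · rw [hIc, Finset.card_image_of_injective _ hcinj, Finset.card_univ, Fintype.card_fin]
    · intro e _ e' _ he
      ext i
      exact congrFun he i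
    · intro c hc
      rw [Finset.mem_filter] at hc
      have hmem : ∀ i, c i ∈ I := fun i => by
        rw [← hc.2]
        exact Finset.mem_image_of_mem _ (Finset.mem_univ _)
      refine ⟨⟨fun i => ⟨c i, hmem i⟩, fun i j hij => hinj c hc.1 (congrArg Subtype.val hij)⟩,
        Finset.mem_univ _, rfl⟩
  have h4 : ∀ c ∈ T.filter (fun c => Finset.univ.image c = I), ∏ i, w (c i) = ∏ u ∈ I, w u := by
    intro c hc
    rw [Finset.mem_filter] at hc
    rw [← hc.2, Finset.prod_image (fun i _ j _ h => hinj c hc.1 h)]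
  rw [Finset.sum_congr rfl h4, Finset.sum_const, h2, nsmul_eq_mul]

variable {d m : ℕ}

/-- the half open cell, in coordinates -/
def pcell (h : ℝ) (c : Fin d → Fin m) : Set (Fin d → ℝ) :=
  Set.univ.pi fun k => Ico (((c k : ℕ) : ℝ) * h) (((c k : ℕ) : ℝ) * h + h)

/-- the weight of a cell -/
noncomputable def wt (h : ℝ) (G : (Fin d → ℝ) → ℝ) (c : Fin d → Fin m) : ℝ :=
  ∫ x in pcell h c, G x

theorem pcell_meas (h : ℝ) (c : Fin d → Fin m) : MeasurableSet (pcell h c) :=
  MeasurableSet.univ_pi fun _ => measurableSet_Ico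

theorem pcell_vol {h : ℝ} (hh : 0 < h) (c : Fin d → Fin m) :
    volume (pcell h c) = ENNReal.ofReal (h ^ d) := by
  unfold pcell
  rw [Real.volume_pi_Ico]
  simp only [add_sub_cancel_left, Finset.prod_const, Finset.card_univ, Fintype.card_fin]
  rw [ENNReal.ofReal_pow hh.le]

theorem pcell_disj {h : ℝ} (hh : 0 < h) {c c' : Fin d → Fin m} (hne : c ≠ c') :
    Disjoint (pcell h c) (pcell h c') := by
  rw [Set.disjoint_left]
  intro x hx hx'
  have h1 : (WithLp.toLp 2 x : ES d) ∈ cell h c := fun k => (Set.mem_univ_pi.1 hx) k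
  have h2 : (WithLp.toLp 2 x : ES d) ∈ cell h c' := fun k => (Set.mem_univ_pi.1 hx') k
  exact Set.disjoint_left.1 (cell_disj hh hne) h1 h2

/-- the cube `[0,L]^d` -/
def cube (d : ℕ) (L : ℝ) : Set (Fin d → ℝ) := {x | ∀ k, x k ∈ Set.Icc (0 : ℝ) L}

theorem cube_eq (d : ℕ) (L : ℝ) : cube d L = Set.univ.pi fun _ => Icc (0 : ℝ) L := by
  ext x
  rw [Set.mem_univ_pi]
  rfl

theorem cube_meas (d : ℕ) (L : ℝ) : MeasurableSet (cube d L) := by
  rw [cube_eq]
  exact MeasurableSet.univ_pi fun _ => measurableSet_Icc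

theorem cube_vol (d : ℕ) {L : ℝ} (hL : 0 ≤ L) : volume (cube d L) = ENNReal.ofReal (L ^ d) := by
  rw [cube_eq, volume_pi_pi]
  simp only [Real.volume_Icc, sub_zero, Finset.prod_const, Finset.card_univ, Fintype.card_fin]
  rw [ENNReal.ofReal_pow hL]

theorem cube_lt (d : ℕ) (L : ℝ) : volume (cube d L) < ⊤ := by
  rw [cube_eq, volume_pi_pi]
  simp only [Real.volume_Icc]
  exact ENNReal.prod_lt_top fun _ _ => ENNReal.ofReal_lt_top

theorem config_meas (d : ℕ) (r L : ℝ) (N : ℕ) : MeasurableSet (config d r L N) := by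
  have h1 : config d r L N = (⋂ i, ⋂ k, {x : Fin N → Fin d → ℝ | x i k ∈ Set.Icc (0 : ℝ) L}) ∩
      ⋂ i, ⋂ j, ⋂ (_ : i ≠ j), {x : Fin N → Fin d → ℝ | r ^ 2 ≤ ∑ k, (x i k - x j k) ^ 2} := by
    ext x
    simp only [config, Set.mem_setOf_eq, Set.mem_inter_iff, Set.mem_iInter]
  rw [h1]
  refine MeasurableSet.inter (MeasurableSet.iInter fun i => MeasurableSet.iInter fun k => ?_)
    (MeasurableSet.iInter fun i => MeasurableSet.iInter fun j => MeasurableSet.iInter fun _ => ?_)
  · have : Measurable (fun x : Fin N → Fin d → ℝ => x i k) := by fun_prop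
    exact this measurableSet_Icc
  · exact measurableSet_le measurable_const (by fun_prop)

theorem cube_sub_cells {L h : ℝ} (hh : 0 < h) (hm : L < m * h) :
    cube d L ⊆ ⋃ c ∈ (Finset.univ : Finset (Fin d → Fin m)), pcell h c := by
  intro x hx
  have hfl : ∀ k, ⌊x k / h⌋₊ < m := by
    intro k
    rw [Nat.floor_lt (div_nonneg (hx k).1 hh.le), div_lt_iff₀ hh]
    exact lt_of_le_of_lt (hx k).2 hm
  rw [mem_iUnion₂]
  refine ⟨fun k => ⟨⌊x k / h⌋₊, hfl k⟩, Finset.mem_univ _, ?_⟩
  unfold pcell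
  rw [Set.mem_univ_pi]
  intro k
  have h1 : (⌊x k / h⌋₊ : ℝ) ≤ x k / h := Nat.floor_le (div_nonneg (hx k).1 hh.le)
  have h2 : x k / h < ⌊x k / h⌋₊ + 1 := Nat.lt_floor_add_one _
  rw [le_div_iff₀ hh] at h1
  rw [div_lt_iff₀ hh] at h2
  refine ⟨h1, ?_⟩
  have : ((⌊x k / h⌋₊ : ℝ) + 1) * h = (⌊x k / h⌋₊ : ℝ) * h + h := by ring
  rw [this] at h2
  exact h2

theorem int_box {N : ℕ} (h : ℝ) (G : (Fin d → ℝ) → ℝ) (c : Fin N → Fin d → Fin m) :
    ∫ x in box h c, ∏ i, G (x i) = ∏ i, wt h G (c i) := by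
  unfold box wt pcell
  rw [volume_pi, Measure.restrict_pi_pi, integral_fintype_prod_eq_prod (fun _ => G)]

open Classical in
theorem config_sub (r L h : ℝ) (N : ℕ) (hh : 0 < h)
    (hm : L < m * h) (hr : √d * h < r) :
    config d r L N ⊆ ⋃ c ∈ Finset.univ.filter (fun c : Fin N → Fin d → Fin m =>
      ∀ i j, i ≠ j → ¬ near h (r - √d * h) (c i) (c j)), box h c := by
  have hr0 : 0 < r := lt_of_le_of_lt (by positivity) hr
  intro x hx
  obtain ⟨hx1, hx2⟩ := hx
  have hfl : ∀ i k, ⌊x i k / h⌋₊ < m := by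
    intro i k
    rw [Nat.floor_lt (div_nonneg (hx1 i k).1 hh.le), div_lt_iff₀ hh]
    exact lt_of_le_of_lt (hx1 i k).2 hm
  set c : Fin N → Fin d → Fin m := fun i k => ⟨⌊x i k / h⌋₊, hfl i k⟩ with hc
  have hxc : ∀ i, (WithLp.toLp 2 (x i) : ES d) ∈ cell h (c i) := by
    intro i k
    have h1 : (⌊x i k / h⌋₊ : ℝ) ≤ x i k / h := Nat.floor_le (div_nonneg (hx1 i k).1 hh.le)
    have h2 : x i k / h < ⌊x i k / h⌋₊ + 1 := Nat.lt_floor_add_one _
    rw [le_div_iff₀ hh] at h1
    rw [div_lt_iff₀ hh] at h2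
    refine ⟨h1, ?_⟩
    have : ((⌊x i k / h⌋₊ : ℝ) + 1) * h = (⌊x i k / h⌋₊ : ℝ) * h + h := by ring
    rw [this] at h2
    exact h2
  rw [mem_iUnion₂]
  refine ⟨c, ?_, (mem_box_iff h c x).2 hxc⟩
  rw [Finset.mem_filter]
  refine ⟨Finset.mem_univ _, fun i j hij => ?_⟩
  rw [near_iff (by linarith)]
  have h3 := hx2 i j hij
  rw [sum_eq_norm] at h3
  have h4 : r ≤ ‖(WithLp.toLp 2 (x i) : ES d) - WithLp.toLp 2 (x j)‖ :=
    le_of_sq_le_sq h3 (norm_nonneg _)
  have h5 := cell_dist hh (hxc i) (hxc j)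
  set a := (WithLp.toLp 2 (x i) : ES d) - WithLp.toLp 2 (x j) with ha
  set b := corner h (c i) - corner h (c j) with hb
  have h6 : ‖a‖ ≤ ‖a - b‖ + ‖b‖ := by
    have := norm_add_le (a - b) b
    rwa [sub_add_cancel] at this
  push Not
  linarith

/-- products of bounded functions -/
theorem prod_bdd {N : ℕ} {G : (Fin d → ℝ) → ℝ} {b : ℝ} (hb : 0 ≤ b) (hG0 : ∀ x, 0 ≤ G x)
    (hG1 : ∀ x, G x ≤ b) (x : Fin N → Fin d → ℝ) :
    0 ≤ ∏ i, G (x i) ∧ ∏ i, G (x i) ≤ b ^ N := by
  refine ⟨Finset.prod_nonneg fun i _ => hG0 _, ?_⟩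
  calc ∏ i, G (x i) ≤ ∏ _i : Fin N, b := Finset.prod_le_prod (fun i _ => hG0 _) fun i _ => hG1 _
    _ = b ^ N := by simp

theorem prod_meas {N : ℕ} {G : (Fin d → ℝ) → ℝ} (hG : Measurable G) :
    Measurable (fun x : Fin N → Fin d → ℝ => ∏ i, G (x i)) :=
  Finset.measurable_prod _ fun i _ => hG.comp (measurable_pi_apply i)

theorem prod_intOn {N : ℕ} {G : (Fin d → ℝ) → ℝ} {b : ℝ} (hb : 0 ≤ b) (hG : Measurable G)
    (hG0 : ∀ x, 0 ≤ G x) (hG1 : ∀ x, G x ≤ b) {S : Set (Fin N → Fin d → ℝ)}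
    (hS : volume S < ⊤) : IntegrableOn (fun x : Fin N → Fin d → ℝ => ∏ i, G (x i)) S := by
  refine Measure.integrableOn_of_bounded (M := b ^ N) hS.ne (prod_meas hG).aestronglyMeasurable ?_
  refine Filter.Eventually.of_forall fun x => ?_
  have := prod_bdd hb hG0 hG1 x
  rw [Real.norm_eq_abs, abs_of_nonneg this.1]
  exact this.2

open Classical in
/-- discretisation with weights -/
theorem config_w_le (r L h b : ℝ) (N : ℕ) (hh : 0 < h) (hm : L < m * h) (hr : √d * h < r)
    (hb : 0 ≤ b) {G : (Fin d → ℝ) → ℝ} (hG : Measurable G)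
    (hG0 : ∀ x, 0 ≤ G x) (hG1 : ∀ x, G x ≤ b) :
    ∫ x in config d r L N, ∏ i, G (x i) ≤
      (N.factorial : ℝ) *
        icw (near (d := d) (m := m) h (r - √d * h)) (wt h G) Finset.univ N := by
  set T := Finset.univ.filter (fun c : Fin N → Fin d → Fin m =>
    ∀ i j, i ≠ j → ¬ near h (r - √d * h) (c i) (c j)) with hT
  have hsub := config_sub (d := d) (m := m) r L h N hh hm hr
  rw [← hT] at hsub
  have hvol : volume (⋃ c ∈ T, box h c) < ⊤ := by
    refine lt_of_le_of_lt (measure_biUnion_finset_le _ _) ?_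
    simp_rw [box_vol hh]
    exact ENNReal.sum_lt_top.2 fun _ _ => ENNReal.ofReal_lt_top
  have h1 : ∫ x in config d r L N, ∏ i, G (x i) ≤ ∫ x in ⋃ c ∈ T, box h c, ∏ i, G (x i) := by
    refine setIntegral_mono_set (prod_intOn hb hG hG0 hG1 hvol) ?_ (Filter.Eventually.of_forall hsub)
    exact Filter.Eventually.of_forall fun x => (prod_bdd hb hG0 hG1 x).1
  refine h1.trans (le_of_eq ?_)
  rw [integral_biUnion_finset T (fun c _ => box_meas h c)
    (fun c _ c' _ hne => box_disj hh hne) (fun c _ => prod_intOn hb hG hG0 hG1 (by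
      rw [box_vol hh]; exact ENNReal.ofReal_lt_top))]
  simp_rw [int_box]
  rw [← tuples_w (near (d := d) (m := m) h (r - √d * h)) (near_refl _ _) (wt h G) N]

/-- the total weight -/
theorem sum_wt {L h b : ℝ} (hh : 0 < h) (hm : L < m * h) {G : (Fin d → ℝ) → ℝ}
    (hG : Measurable G) (hG0 : ∀ x, 0 ≤ G x) (hG1 : ∀ x, G x ≤ b) :
    ∑ c : Fin d → Fin m, wt h ((cube d L).indicator G) c = ∫ x in cube d L, G x := by
  unfold wt
  have hmeas : Measurable ((cube d L).indicator G) := hG.indicator (cube_meas d L)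
  rw [← integral_biUnion_finset Finset.univ (fun c _ => pcell_meas h c)
    (fun c _ c' _ hne => pcell_disj hh hne) (fun c _ => ?_)]
  · rw [setIntegral_indicator (cube_meas d L)]
    congr 2
    exact Set.inter_eq_right.2 (cube_sub_cells hh hm)
  · refine Measure.integrableOn_of_bounded (M := b) (by
      rw [pcell_vol hh]; exact ENNReal.ofReal_ne_top) hmeas.aestronglyMeasurable ?_
    refine Filter.Eventually.of_forall fun x => ?_
    rw [Real.norm_eq_abs]
    by_cases hx : x ∈ cube d L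
    · rw [Set.indicator_of_mem hx, abs_of_nonneg (hG0 x)]
      exact hG1 x
    · rw [Set.indicator_of_notMem hx, abs_zero]
      exact (hG0 x).trans (hG1 x)

theorem wt_nonneg (h : ℝ) {G : (Fin d → ℝ) → ℝ} (hG0 : ∀ x, 0 ≤ G x) (c : Fin d → Fin m) :
    0 ≤ wt h G c := by
  unfold wt
  exact integral_nonneg fun x => hG0 x

theorem wt_le {h b : ℝ} (hh : 0 < h) {G : (Fin d → ℝ) → ℝ} (hG0 : ∀ x, 0 ≤ G x)
    (hG1 : ∀ x, G x ≤ b) (c : Fin d → Fin m) : wt h G c ≤ b * h ^ d := by
  unfold wt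
  have h1 := norm_setIntegral_le_of_norm_le_const (μ := volume) (s := pcell h c) (f := G) (C := b)
    (by rw [pcell_vol hh]; exact ENNReal.ofReal_lt_top) (fun x _ => by
      rw [Real.norm_eq_abs, abs_of_nonneg (hG0 x)]; exact hG1 x)
  rw [Measure.real, pcell_vol hh, ENNReal.toReal_ofReal (by positivity)] at h1
  exact (le_abs_self _).trans h1

theorem icw_scale {X : Type} (R : X → X → Prop) (w : X → ℝ) (a : ℝ) (U : Finset X) (k : ℕ) :
    icw R (fun u => a * w u) U k = a ^ k * icw R w U k := by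
  classical
  unfold icw
  rw [Finset.mul_sum]
  refine Finset.sum_congr rfl fun I hI => ?_
  rw [Finset.mem_filter, Finset.mem_powersetCard] at hI
  rw [Finset.prod_mul_distrib, Finset.prod_const, hI.1.2]

/-- the finite bound -/
theorem exp_upper (hd : 1 ≤ d) (r L h T : ℝ) (N : ℕ) (hh : 0 < h) (hL : 0 < L) (hm : L < m * h)
    (hr : 2 * (√d * h) < r) {ψ : (Fin d → ℝ) → ℝ} (hψ : Measurable ψ) (hψ1 : ∀ x, |ψ x| ≤ 1)
    (κ s : ℝ) (hκ : κ = bv d (r - 2 * (√d * h)) / (m * h + 2 * (r - √d * h)) ^ d) (hκ1 : κ < 1)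
    (hs : s = bv d (r - 2 * (√d * h)) * eps d / h ^ d)
    (hT : N * (κ / (1 - κ)) ≤ T) :
    ∫ x in config d r L N, Real.exp (∑ i, ψ (x i)) ≤
      (∫ x in cube d L, Real.exp (ψ x)) ^ N *
        Real.exp (-(κ * (N * (N - 1) / 2)) +
          N * ((1 + s) * (Real.exp 2 * h ^ d) / (κ * L ^ d) * Real.exp T)) := by
  classical
  have hdh : 0 ≤ √d * h := by positivity
  have hr0 : 0 < r := by linarith
  have hmh : 0 < m * h := by linarith
  have hb2 : 0 < bv d (r - 2 * (√d * h)) := bv_pos d (by linarith)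
  have hκ0 : 0 < κ := by
    rw [hκ]
    have : 0 < m * h + 2 * (r - √d * h) := by nlinarith
    positivity
  have hhd : 0 < h ^ d := by positivity
  have hs0 : 0 ≤ s := by
    rw [hs]
    have := eps_pos d
    positivity
  set E := Real.exp 1 with hE
  have hE0 : 0 < E := Real.exp_pos _
  set G : (Fin d → ℝ) → ℝ := fun x => Real.exp (ψ x) with hGdef
  have hGm : Measurable G := Real.measurable_exp.comp hψ
  have hG0 : ∀ x, 0 ≤ G x := fun x => (Real.exp_pos _).le
  have hG1 : ∀ x, G x ≤ E := fun x => Real.exp_le_exp.2 (abs_le.1 (hψ1 x)).2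
  have hGl : ∀ x, Real.exp (-1) ≤ G x := fun x => Real.exp_le_exp.2 (abs_le.1 (hψ1 x)).1
  set G' := (cube d L).indicator G with hG'
  have hG'm : Measurable G' := hGm.indicator (cube_meas d L)
  have hG'0 : ∀ x, 0 ≤ G' x := fun x => Set.indicator_nonneg (fun x _ => hG0 x) x
  have hG'1 : ∀ x, G' x ≤ E := fun x => Set.indicator_apply_le' (fun _ => hG1 x) (fun _ => hE0.le)
  -- the integral
  have h1 : ∫ x in config d r L N, Real.exp (∑ i, ψ (x i)) =
      ∫ x in config d r L N, ∏ i, G' (x i) := by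
    refine setIntegral_congr_fun (config_meas d r L N) fun x hx => ?_
    · rw [Real.exp_sum]
      refine Finset.prod_congr rfl fun i _ => ?_
      rw [hG', Set.indicator_of_mem]
      exact hx.1 i
  rw [h1]
  refine (config_w_le r L h E N hh hm (by linarith) hE0.le hG'm hG'0 hG'1).trans ?_
  set w : (Fin d → Fin m) → ℝ := fun c => wt h G' c / (E * h ^ d) with hw
  have hw0 : ∀ c, 0 ≤ w c := fun c => div_nonneg (wt_nonneg h hG'0 c) (by positivity)
  have hw1 : ∀ c, w c ≤ 1 := fun c => by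
    rw [hw]
    exact (div_le_one (by positivity)).2 (wt_le hh hG'0 hG'1 c)
  have hwt : wt (m := m) h G' = fun c => (E * h ^ d) * w c := by
    funext c
    rw [hw]
    field_simp
  have hsum : ∑ c, w c = (∫ x in cube d L, G x) / (E * h ^ d) := by
    rw [hw]
    simp_rw [← Finset.sum_div]
    rw [sum_wt hh hm hGm hG0 hG1]
  set I := ∫ x in cube d L, G x with hI
  have hIl : Real.exp (-1) * L ^ d ≤ I := by
    have h2 : ∫ x in cube d L, Real.exp (-1) ≤ I := by
      refine setIntegral_mono ?_ ?_ hGl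
      · exact integrableOn_const (cube_lt d L).ne
      · refine Measure.integrableOn_of_bounded (M := E) (cube_lt d L).ne
          hGm.aestronglyMeasurable ?_
        refine Filter.Eventually.of_forall fun x => ?_
        rw [Real.norm_eq_abs, abs_of_nonneg (hG0 x)]
        exact hG1 x
    rw [setIntegral_const, Measure.real, cube_vol d hL.le,
      ENNReal.toReal_ofReal (by positivity), smul_eq_mul, mul_comm] at h2
    exact h2
  have hI0 : 0 < I := lt_of_lt_of_le (by positivity) hIl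
  have hsum0 : 0 < ∑ c, w c := by
    rw [hsum]
    positivity
  rw [hwt, icw_scale]
  have hss : (r - √d * h) - √d * h = r - 2 * (√d * h) := by ring
  have hfu := fin_upper (near (d := d) (m := m) h (r - √d * h)) (near_refl _ _) hw0 hw1
    (1 - κ) s T N (by linarith) (by linarith) hs0
    (fun U hU => by
      have := KW_near_w hd (r - √d * h) h hh (by linarith) hw0 hw1 U hU
      rw [hss, ← hκ, ← hs] at this
      convert this using 3)
    (by rw [sub_sub_cancel]; exact hT) hsum0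
  rw [sub_sub_cancel] at hfu
  have h3 : (N.factorial : ℝ) * ((E * h ^ d) ^ N *
      icw (near (d := d) (m := m) h (r - √d * h)) w Finset.univ N) =
      (E * h ^ d) ^ N * (icw (near (d := d) (m := m) h (r - √d * h)) w Finset.univ N *
        (N.factorial : ℝ)) := by ring
  rw [h3]
  refine (mul_le_mul_of_nonneg_left hfu (by positivity)).trans ?_
  rw [← mul_assoc, ← mul_pow]
  have h4 : E * h ^ d * ∑ c, w c = I := by
    rw [hsum]
    field_simp
  rw [h4]
  refine mul_le_mul_of_nonneg_left ?_ (by positivity)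
  refine Real.exp_le_exp.2 ?_
  have h5 : (1 + s) / (κ * ∑ c, w c) ≤ (1 + s) * (Real.exp 2 * h ^ d) / (κ * L ^ d) := by
    rw [hsum, div_le_div_iff₀ (by positivity) (by positivity)]
    have h6 : Real.exp 2 * h ^ d * (I / (E * h ^ d)) = E * I := by
      have : Real.exp 2 = E * E := by rw [hE, ← Real.exp_add]; norm_num
      rw [this]
      field_simp
    have h7 : L ^ d ≤ E * I := by
      have h8 := mul_le_mul_of_nonneg_left hIl hE0.le
      rw [← mul_assoc, hE, ← Real.exp_add, add_neg_cancel, Real.exp_zero, one_mul] at h8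
      exact h8
    calc (1 + s) * (κ * L ^ d) ≤ (1 + s) * (κ * (E * I)) := by gcongr
      _ = (1 + s) * (κ * (Real.exp 2 * h ^ d * (I / (E * h ^ d)))) := by rw [h6]
      _ = _ := by ring
  have h9 : (N : ℝ) * ((1 + s) / (κ * ∑ c, w c) * Real.exp T) ≤
      N * ((1 + s) * (Real.exp 2 * h ^ d) / (κ * L ^ d) * Real.exp T) := by
    gcongr
  linarith

end Pool.Agent.U279.KT
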