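import Pool.Agent.K4H61.HS.Main
import Pool.Agent.U279.KT.Conf

/-!
Uniform asymptotic upper bound for the weighted partition functions.
-/

set_option autoImplicit false
open Filter Topology MeasureTheory

namespace Pool.Agent.U279.KT
open Pool.Agent.K4H61.HS

variable {d : ℕ} {L : ℕ → ℝ} {N : ℕ → ℕ} {ρ h : ℝ}

theorem asym_w (hd : 1 ≤ d) (r C : ℝ) (hh : 0 < h) (hρ : 0 < ρ)
    (hrh : 2 * (√d * h) < r) (x : ℝ) (hx : x = ρ * bv d (r - 2 * (√d * h)))
    (hL : Tendsto L atTop atTop) (hN : Tendsto (fun k => (N k : ℝ) / L k ^ d) atTop (𝓝 ρ))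
    (hC : -(x / 2) + Real.exp 2 * (h ^ d / bv d (r - 2 * (√d * h)) + eps d) * Real.exp (x + 1) <
      C) :
    ∀ᶠ k in atTop, ∀ ψ : (Fin d → ℝ) → ℝ, Measurable ψ → (∀ x, |ψ x| ≤ 1) →
      ∫ x in config d r (L k) (N k), Real.exp (∑ i, ψ (x i)) ≤
        (∫ x in cube d (L k), Real.exp (ψ x)) ^ (N k) * Real.exp (C * N k) := by
  have hdh : 0 ≤ √d * h := by positivity
  have hr : 0 < r := by linarith
  set B := bv d (r - 2 * (√d * h)) with hB
  have hB0 : 0 < B := bv_pos d (by linarith)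
  have hx0 : 0 < x := by rw [hx]; positivity
  set s := r - √d * h with hs
  have hs0 : 0 < s := by linarith
  set m : ℕ → ℕ := fun k => ⌊L k / h⌋₊ + 1 with hm
  have hmL : Tendsto (fun k => (m k : ℝ) * h / L k) atTop (𝓝 1) := lim_floor' hh hL
  have hminf := lim_m hh hL hmL
  have hhd : 0 < h ^ d := by positivity
  set sK : ℝ := B * eps d / h ^ d with hsK
  have hsK0 : 0 ≤ sK := by rw [hsK]; have := eps_pos d; positivity
  set κ : ℕ → ℝ := fun k => B / (m k * h + 2 * s) ^ d with hκ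
  have hNinf : Tendsto (fun k => (N k : ℝ)) atTop atTop := lim_N hd hρ hL hN
  have hκ0 : Tendsto κ atTop (𝓝 0) := lim_k hd B hh hminf
  have hκn : Tendsto (fun k => κ k * (m k : ℝ) ^ d) atTop (𝓝 (B / h ^ d)) :=
    lim_kn B hh hs0.le hminf
  have c1 : ∀ᶠ k in atTop, 0 < m k := by
    filter_upwards [hminf.eventually_gt_atTop 0] with k hk
    exact_mod_cast hk
  have hκN : Tendsto (fun k => κ k * N k) atTop (𝓝 x) := by
    have h1 := hκn.mul (lim_Nn hh hL hmL hN)
    have h2 : B / h ^ d * (ρ * h ^ d) = x := by rw [hx]; field_simp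
    rw [h2] at h1
    refine h1.congr' ?_
    filter_upwards [c1] with k hk
    have hmk : (0 : ℝ) < m k := by exact_mod_cast hk
    field_simp
  have hκL : Tendsto (fun k => κ k * L k ^ d) atTop (𝓝 B) := by
    have h1 := (hκn.div (lim_n (d := d) hmL) one_ne_zero).mul_const (h ^ d)
    have h2 : B / h ^ d / 1 * h ^ d = B := by field_simp
    rw [h2] at h1
    refine h1.congr' ?_
    filter_upwards [c1, hL.eventually_gt_atTop 0] with k hk hLk
    have hmk : (0 : ℝ) < m k := by exact_mod_cast hk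
    simp only [Pi.div_apply]
    field_simp
  have c3 : ∀ᶠ k in atTop, κ k < 1 := hκ0.eventually_lt_const one_pos
  have c4 : ∀ᶠ k in atTop, N k * (κ k / (1 - κ k)) ≤ x + 1 := by
    have l1 : Tendsto (fun k => (κ k * N k) / (1 - κ k)) atTop (𝓝 (x / (1 - 0))) :=
      hκN.div (hκ0.const_sub 1) (by norm_num)
    have l2 : x / (1 - 0) < x + 1 := by simp
    filter_upwards [l1.eventually_lt_const l2] with k hk
    refine le_trans (le_of_eq ?_) hk.le
    ring
  have c5 : ∀ᶠ k in atTop, -(κ k * (N k - 1) / 2) +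
      (1 + sK) * (Real.exp 2 * h ^ d) / (κ k * L k ^ d) * Real.exp (x + 1) ≤ C := by
    have e0 : Tendsto (fun k => κ k * (N k - 1) / 2) atTop (𝓝 ((x - 0) / 2)) := by
      refine ((hκN.sub hκ0).div_const 2).congr fun k => ?_
      ring
    have e1 : Tendsto (fun k => (1 + sK) * (Real.exp 2 * h ^ d) / (κ k * L k ^ d) *
        Real.exp (x + 1)) atTop
        (𝓝 ((1 + sK) * (Real.exp 2 * h ^ d) / B * Real.exp (x + 1))) :=
      (tendsto_const_nhds.div hκL (by positivity)).mul_const _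
    have e4 := e0.neg.add e1
    have e5 : (1 + sK) * (Real.exp 2 * h ^ d) / B = Real.exp 2 * (h ^ d / B + eps d) := by
      rw [hsK]; field_simp
    rw [e5, sub_zero] at e4
    filter_upwards [e4.eventually_lt_const hC] with k hk using hk.le
  filter_upwards [c1, c3, c4, c5, hL.eventually_gt_atTop 0] with k k1 k3 k4 k5 k11 ψ hψ hψ1
  have hmk : (0 : ℝ) < m k := by exact_mod_cast k1
  have hLm : L k < m k * h := by
    have := Nat.lt_floor_add_one (L k / h)
    rw [div_lt_iff₀ hh] at this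
    simp only [hm]
    push_cast
    exact this
  refine (exp_upper hd r (L k) h (x + 1) (N k) hh k11 hLm hrh hψ hψ1 (κ k) sK rfl k3 rfl k4).trans ?_
  have hI0 : 0 ≤ ∫ x in cube d (L k), Real.exp (ψ x) := integral_nonneg fun _ => (Real.exp_pos _).le
  refine mul_le_mul_of_nonneg_left ?_ (by positivity)
  refine Real.exp_le_exp.2 ?_
  have h1 : -(κ k * ((N k : ℝ) * (N k - 1) / 2)) +
      N k * ((1 + sK) * (Real.exp 2 * h ^ d) / (κ k * L k ^ d) * Real.exp (x + 1)) =
      (-(κ k * (N k - 1) / 2) +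
      (1 + sK) * (Real.exp 2 * h ^ d) / (κ k * L k ^ d) * Real.exp (x + 1)) * N k := by ring
  rw [h1]
  exact mul_le_mul_of_nonneg_right k5 (Nat.cast_nonneg _)

end Pool.Agent.U279.KT
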