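import Pool.Agent.U279.KT.Gibbs

/-!
No Bragg peaks, even locally.
-/

set_option autoImplicit false
open MeasureTheory Set

namespace Pool.Agent.U279.KT

variable {d m N : ℕ} {L θ ℓ : ℝ}

/-- a plane wave -/
noncomputable def wave (κ y : Fin d → ℝ) : ℂ :=
  Complex.exp (((∑ j, κ j * y j : ℝ) : ℂ) * Complex.I)

theorem wave_norm (κ y : Fin d → ℝ) : ‖wave κ y‖ = 1 := Complex.norm_exp_ofReal_mul_I _

theorem wave_meas (κ : Fin d → ℝ) : Measurable (wave κ) := by
  unfold wave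
  fun_prop

theorem wave_prod (κ y : Fin d → ℝ) :
    wave κ y = ∏ j, Complex.exp (((κ j : ℝ) : ℂ) * Complex.I * ((y j : ℝ) : ℂ)) := by
  unfold wave
  rw [← Complex.exp_sum]
  congr 1
  push_cast
  rw [Finset.sum_mul]
  refine Finset.sum_congr rfl fun j _ => ?_
  ring

theorem factor_le (hℓ : 0 < ℓ) (c s : ℝ) :
    ‖∫ y in Ico s (s + ℓ), Complex.exp (((c : ℝ) : ℂ) * Complex.I * ((y : ℝ) : ℂ))‖ ≤ ℓ := by
  have h1 := norm_setIntegral_le_of_norm_le_const (μ := volume) (s := Ico s (s + ℓ))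
    (f := fun y : ℝ => Complex.exp (((c : ℝ) : ℂ) * Complex.I * ((y : ℝ) : ℂ))) (C := 1)
    (by rw [Real.volume_Ico]; exact ENNReal.ofReal_lt_top) (fun y _ => by
      rw [show ((c : ℝ) : ℂ) * Complex.I * ((y : ℝ) : ℂ) = ((c * y : ℝ) : ℂ) * Complex.I by
        push_cast; ring, Complex.norm_exp_ofReal_mul_I])
  rw [Measure.real, Real.volume_Ico, add_sub_cancel_left, ENNReal.toReal_ofReal hℓ.le,
    one_mul] at h1
  exact h1

theorem factor_le' (hℓ : 0 < ℓ) (c s : ℝ) (hc : c ≠ 0) :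
    ‖∫ y in Ico s (s + ℓ), Complex.exp (((c : ℝ) : ℂ) * Complex.I * ((y : ℝ) : ℂ))‖ ≤
      2 / |c| := by
  have hc' : ((c : ℝ) : ℂ) * Complex.I ≠ 0 := by simp [hc]
  rw [integral_Ico_eq_integral_Ioc, ← intervalIntegral.integral_of_le (by linarith),
    integral_exp_mul_complex hc', norm_div]
  have h1 : ‖((c : ℝ) : ℂ) * Complex.I‖ = |c| := by simp
  rw [h1]
  refine div_le_div_of_nonneg_right ?_ (abs_nonneg _)
  refine (norm_sub_le _ _).trans ?_
  have h2 : ∀ y : ℝ, ‖Complex.exp (((c : ℝ) : ℂ) * Complex.I * ((y : ℝ) : ℂ))‖ = 1 := fun y => by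
    rw [show ((c : ℝ) : ℂ) * Complex.I * ((y : ℝ) : ℂ) = ((c * y : ℝ) : ℂ) * Complex.I by
        push_cast; ring, Complex.norm_exp_ofReal_mul_I]
  rw [h2, h2]
  norm_num

/-- the integral of a plane wave over a cell -/
theorem wave_cell (hℓ : 0 < ℓ) (q : Fin d → Fin m) (κ : Fin d → ℝ) (b : ℝ) (hb : 0 < b)
    (j : Fin d) (hj : b ≤ |κ j|) :
    ‖∫ y in pcell ℓ q, wave κ y‖ ≤ 2 / (b * ℓ) * ℓ ^ d := by
  unfold pcell
  simp_rw [wave_prod]
  rw [volume_pi, Measure.restrict_pi_pi, integral_fintype_prod_eq_prod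
    (fun j (y : ℝ) => Complex.exp (((κ j : ℝ) : ℂ) * Complex.I * ((y : ℝ) : ℂ))), norm_prod,
    ← Finset.mul_prod_erase _ _ (Finset.mem_univ j)]
  have hκ : κ j ≠ 0 := by
    intro h
    rw [h, abs_zero] at hj
    linarith
  have h1 := factor_le' (ℓ := ℓ) hℓ (κ j) (((q j : ℕ) : ℝ) * ℓ) hκ
  have h2 : 2 / |κ j| ≤ 2 / b := by
    exact div_le_div_of_nonneg_left (by norm_num) hb hj
  have h3 : ∏ x ∈ Finset.univ.erase j, ‖∫ y in Ico (((q x : ℕ) : ℝ) * ℓ) (((q x : ℕ) : ℝ) * ℓ + ℓ),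
      Complex.exp (((κ x : ℝ) : ℂ) * Complex.I * ((y : ℝ) : ℂ))‖ ≤ ℓ ^ (d - 1) := by
    refine (Finset.prod_le_prod (fun _ _ => norm_nonneg _) fun x _ => factor_le hℓ _ _).trans ?_
    rw [Finset.prod_const, Finset.card_erase_of_mem (Finset.mem_univ j), Finset.card_univ,
      Fintype.card_fin]
  have hd : d = (d - 1) + 1 := by
    have := j.2
    omega
  have h4 : 2 / (b * ℓ) * ℓ ^ d = 2 / b * ℓ ^ (d - 1) := by
    conv_lhs => rw [hd, pow_succ]
    field_simp
  rw [h4]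
  exact mul_le_mul (h1.trans h2) h3 (Finset.prod_nonneg fun _ _ => norm_nonneg _) (by positivity)

theorem cell_sub_cube (hm : 0 < m) (hL : 0 < L) (q : Fin d → Fin m) :
    pcell (L / m) q ⊆ cube d L := by
  intro y hy k
  unfold pcell at hy
  have h1 := (Set.mem_univ_pi.1 hy) k
  have hm0 : (0 : ℝ) < m := by exact_mod_cast hm
  have h2 : ((q k : ℕ) : ℝ) + 1 ≤ m := by exact_mod_cast (q k).2
  have h3 : (((q k : ℕ) : ℝ) + 1) * (L / m) ≤ m * (L / m) :=
    mul_le_mul_of_nonneg_right h2 (by positivity)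
  rw [mul_div_cancel₀ _ hm0.ne'] at h3
  have h4 : 0 ≤ ((q k : ℕ) : ℝ) * (L / m) := by positivity
  have h5 := h1.1
  have h6 := h1.2
  exact ⟨by linarith, by linarith⟩

theorem sum_ind_le (hℓ : 0 < ℓ) (f : (Fin d → Fin m) → (Fin d → ℝ) → ℝ)
    (hf : ∀ q y, |f q y| ≤ 1) (y : Fin d → ℝ) :
    |∑ q, (pcell ℓ q).indicator (f q) y| ≤ 1 := by
  by_cases h : ∃ q0 : Fin d → Fin m, y ∈ pcell ℓ q0
  · obtain ⟨q0, h0⟩ := h
    rw [Finset.sum_eq_single q0, Set.indicator_of_mem h0]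
    · exact hf q0 y
    · intro q _ hne
      rw [Set.indicator_of_notMem]
      intro h1
      exact Set.disjoint_left.1 (pcell_disj hℓ hne) h1 h0
    · exact fun h => absurd (Finset.mem_univ _) h
  · push Not at h
    rw [Finset.sum_eq_zero fun q _ => Set.indicator_of_notMem (h q) _]
    simp

/-- the four directions -/
theorem dir (z : ℂ) : ∃ k : Fin 4, 2 / 3 * ‖z‖ ≤ (Complex.I ^ (k : ℕ) * z).re := by
  have h1 : ‖z‖ ^ 2 = z.re ^ 2 + z.im ^ 2 := by
    rw [← Complex.normSq_eq_norm_sq, Complex.normSq_apply]; ring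
  have h0 := norm_nonneg z
  have key : ∀ y : ℝ, 0 ≤ y → z.re ^ 2 ≤ y ^ 2 → z.im ^ 2 ≤ y ^ 2 → 2 / 3 * ‖z‖ ≤ y := by
    intro y hy h2 h3
    nlinarith
  rcases le_total (z.im ^ 2) (z.re ^ 2) with h2 | h2
  · rcases le_total 0 z.re with h3 | h3
    · refine ⟨0, ?_⟩
      have := key z.re h3 le_rfl h2
      simpa using this
    · refine ⟨2, ?_⟩
      have := key (-z.re) (by linarith) (by rw [neg_sq]) (by rw [neg_sq]; exact h2)
      simpa [Complex.I_sq] using this
  · rcases le_total 0 z.im with h3 | h3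
    · refine ⟨3, ?_⟩
      have := key z.im h3 h2 le_rfl
      have h4 : Complex.I ^ (((3 : Fin 4) : ℕ)) = -Complex.I := by
        show Complex.I ^ 3 = -Complex.I
        rw [pow_succ, Complex.I_sq]
        ring
      rw [h4]
      simpa using this
    · refine ⟨1, ?_⟩
      have := key (-z.im) (by linarith) (by rw [neg_sq]; exact h2) (by rw [neg_sq])
      simpa using this

/-- the test functions -/
noncomputable def phi (ℓ : ℝ) (g : (Fin d → Fin m) → Fin d → ℝ) (σ : (Fin d → Fin m) → Fin 4)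
    (y : Fin d → ℝ) : ℝ :=
  ∑ q, (pcell ℓ q).indicator (fun y => (Complex.I ^ (σ q : ℕ) * wave (g q) y).re) y

theorem comp_abs (k : ℕ) (g y : Fin d → ℝ) : |(Complex.I ^ k * wave g y).re| ≤ 1 := by
  refine (Complex.abs_re_le_norm _).trans ?_
  rw [norm_mul, norm_pow, Complex.norm_I, one_pow, wave_norm, one_mul]

theorem comp_meas (k : ℕ) (g : Fin d → ℝ) :
    Measurable (fun y => (Complex.I ^ k * wave g y).re) := by
  have := wave_meas g
  exact Complex.measurable_re.comp (by fun_prop)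

theorem phi_meas (ℓ : ℝ) (g : (Fin d → Fin m) → Fin d → ℝ) (σ : (Fin d → Fin m) → Fin 4) :
    Measurable (phi ℓ g σ) := by
  unfold phi
  exact Finset.measurable_sum _ fun q _ => (comp_meas _ _).indicator (pcell_meas ℓ q)

theorem phi_abs (hℓ : 0 < ℓ) (g : (Fin d → Fin m) → Fin d → ℝ) (σ : (Fin d → Fin m) → Fin 4)
    (y : Fin d → ℝ) : |phi ℓ g σ y| ≤ 1 :=
  sum_ind_le hℓ _ (fun _ _ => comp_abs _ _ _) y

theorem phi_mean (hm : 0 < m) (hL : 0 < L) (g : (Fin d → Fin m) → Fin d → ℝ)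
    (σ : (Fin d → Fin m) → Fin 4) (b : ℝ) (hb : 0 < b) (hg : ∀ q, ∃ j, b ≤ |g q j|) :
    |(∫ y in cube d L, phi (L / m) g σ y) / L ^ d| ≤ 2 / (b * (L / m)) := by
  have hm0 : (0 : ℝ) < m := by exact_mod_cast hm
  have hLd : 0 < L ^ d := by positivity
  have hℓ : 0 < L / m := by positivity
  have h1 : ∫ y in cube d L, phi (L / m) g σ y =
      ∑ q, ∫ y in pcell (L / m) q, (Complex.I ^ (σ q : ℕ) * wave (g q) y).re := by
    unfold phi
    rw [integral_finsetSum]
    · refine Finset.sum_congr rfl fun q _ => ?_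
      rw [setIntegral_indicator (pcell_meas _ q), Set.inter_eq_right.2 (cell_sub_cube hm hL q)]
    · intro q _
      refine intOn_bdd (b := 1) ((comp_meas _ _).indicator (pcell_meas _ q)) fun y => ?_
      by_cases hy : y ∈ pcell (L / m) q
      · rw [Set.indicator_of_mem hy]
        exact comp_abs _ _ _
      · rw [Set.indicator_of_notMem hy]
        simp
  have h2 : ∀ q : Fin d → Fin m,
      |∫ y in pcell (L / m) q, (Complex.I ^ (σ q : ℕ) * wave (g q) y).re| ≤
        2 / (b * (L / m)) * (L / m) ^ d := by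
    intro q
    obtain ⟨j, hj⟩ := hg q
    have h3 := wave_cell hℓ q (g q) b hb j hj
    refine le_trans ?_ h3
    have hw : Integrable (wave (g q)) (volume.restrict (pcell (L / m) q)) := by
      refine Measure.integrableOn_of_bounded (M := 1) (by
        rw [pcell_vol hℓ]; exact ENNReal.ofReal_ne_top) (wave_meas _).aestronglyMeasurable ?_
      exact Filter.Eventually.of_forall fun y => (wave_norm _ _).le
    have h4 := Complex.reCLM.integral_comp_comm (hw.const_mul (Complex.I ^ (σ q : ℕ)))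
    simp only [Complex.reCLM_apply] at h4
    rw [h4, integral_const_mul]
    refine (Complex.abs_re_le_norm _).trans ?_
    rw [norm_mul, norm_pow, Complex.norm_I, one_pow, one_mul]
  rw [abs_div, abs_of_pos hLd, div_le_iff₀ hLd, h1]
  refine (Finset.abs_sum_le_sum_abs _ _).trans ((Finset.sum_le_sum fun q _ => h2 q).trans ?_)
  rw [Finset.sum_const, Finset.card_univ, nsmul_eq_mul, Fintype.card_fun, Fintype.card_fin,
    Fintype.card_fin]
  refine le_of_eq ?_
  push_cast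
  rw [div_pow]
  field_simp

/-- the amplitude of a plane wave in a cell -/
noncomputable def amp (ℓ : ℝ) (q : Fin d → Fin m) (κ : Fin d → ℝ) (x : Fin N → Fin d → ℝ) : ℂ :=
  ∑ i, (pcell ℓ q).indicator (wave κ) (x i)

theorem wave_diff (κ g y : Fin d → ℝ) {η : ℝ} (hκ : ∀ j, |κ j - g j| ≤ η)
    (hy : ∀ j, |y j| ≤ L) (hη : 0 ≤ η) : ‖wave κ y - wave g y‖ ≤ d * η * L := by
  have h1 : wave κ y - wave g y = wave g y *
      (Complex.exp (Complex.I * ((∑ j, (κ j - g j) * y j : ℝ) : ℂ)) - 1) := by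
    unfold wave
    rw [mul_sub, mul_one, ← Complex.exp_add]
    congr 2
    push_cast
    rw [Finset.sum_mul, Finset.sum_mul, Finset.mul_sum, ← Finset.sum_add_distrib]
    refine Finset.sum_congr rfl fun j _ => ?_
    ring
  rw [h1, norm_mul, wave_norm, one_mul]
  refine (Real.norm_exp_I_mul_ofReal_sub_one_le).trans ?_
  rw [Real.norm_eq_abs]
  refine (Finset.abs_sum_le_sum_abs _ _).trans ?_
  have h2 : ∀ j ∈ (Finset.univ : Finset (Fin d)), |(κ j - g j) * y j| ≤ η * L := by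
    intro j _
    rw [abs_mul]
    exact mul_le_mul (hκ j) (hy j) (abs_nonneg _) hη
  refine (Finset.sum_le_sum h2).trans (le_of_eq ?_)
  rw [Finset.sum_const, Finset.card_univ, Fintype.card_fin, nsmul_eq_mul]
  ring

theorem amp_rel (q : Fin d → Fin m) (κ c : Fin d → ℝ) (x : Fin N → Fin d → ℝ) :
    ‖amp ℓ q κ x‖ = ‖∑ i, (pcell ℓ q).indicator (fun y => wave κ (y - c)) (x i)‖ := by
  have h1 : amp ℓ q κ x = wave κ c *
      ∑ i, (pcell ℓ q).indicator (fun y => wave κ (y - c)) (x i) := by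
    unfold amp
    rw [Finset.mul_sum]
    refine Finset.sum_congr rfl fun i _ => ?_
    by_cases hx : x i ∈ pcell ℓ q
    · rw [Set.indicator_of_mem hx, Set.indicator_of_mem hx]
      unfold wave
      rw [← Complex.exp_add, ← add_mul, ← Complex.ofReal_add, ← Finset.sum_add_distrib]
      congr 3
      refine Finset.sum_congr rfl fun j _ => ?_
      rw [Pi.sub_apply]
      ring
    · rw [Set.indicator_of_notMem hx, Set.indicator_of_notMem hx, mul_zero]
  rw [h1, norm_mul, wave_norm, one_mul]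

theorem amp_diff (hℓ : 0 < ℓ) (κ g : (Fin d → Fin m) → Fin d → ℝ) {η : ℝ}
    (hκ : ∀ q j, |κ q j - g q j| ≤ η) (hη : 0 ≤ η) (x : Fin N → Fin d → ℝ) :
    ∑ q, ‖amp ℓ q (κ q) x‖ ≤ ∑ q, ‖amp ℓ q (g q) x‖ + N * (d * η * ℓ) := by
  set D : ℝ := d * η * ℓ with hD
  have hD0 : 0 ≤ D := by positivity
  have h1 : ∀ q : Fin d → Fin m, ‖amp ℓ q (κ q) x‖ ≤ ‖amp ℓ q (g q) x‖ +
      ∑ i, (pcell ℓ q).indicator (fun _ => D) (x i) := by
    intro q
    set c : Fin d → ℝ := fun k => ((q k : ℕ) : ℝ) * ℓ with hc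
    rw [amp_rel q (κ q) c, amp_rel q (g q) c]
    have h2 : ∑ i, (pcell ℓ q).indicator (fun y => wave (κ q) (y - c)) (x i) =
        ∑ i, (pcell ℓ q).indicator (fun y => wave (g q) (y - c)) (x i) +
        ∑ i, (pcell ℓ q).indicator (fun y => wave (κ q) (y - c) - wave (g q) (y - c)) (x i) := by
      rw [← Finset.sum_add_distrib]
      refine Finset.sum_congr rfl fun i _ => ?_
      by_cases hx : x i ∈ pcell ℓ q
      · simp [Set.indicator_of_mem hx]
      · simp [Set.indicator_of_notMem hx]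
    rw [h2]
    refine (norm_add_le _ _).trans (add_le_add le_rfl ((norm_sum_le _ _).trans ?_))
    refine Finset.sum_le_sum fun i _ => ?_
    by_cases hx : x i ∈ pcell ℓ q
    · rw [Set.indicator_of_mem hx, Set.indicator_of_mem hx]
      refine wave_diff _ _ _ (hκ q) (fun j => ?_) hη
      unfold pcell at hx
      have := (Set.mem_univ_pi.1 hx) j
      rw [Pi.sub_apply, hc, abs_le]
      dsimp only
      constructor <;> linarith [this.1, this.2]
    · rw [Set.indicator_of_notMem hx, Set.indicator_of_notMem hx]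
      simp
  refine (Finset.sum_le_sum fun q _ => h1 q).trans ?_
  rw [Finset.sum_add_distrib]
  refine add_le_add le_rfl ?_
  rw [Finset.sum_comm]
  have h3 : ∀ i ∈ (Finset.univ : Finset (Fin N)),
      ∑ q : Fin d → Fin m, (pcell ℓ q).indicator (fun _ => D) (x i) ≤ D := by
    intro i _
    have h4 := sum_ind_le (m := m) hℓ (fun _ _ => (1 : ℝ)) (fun _ _ => by simp) (x i)
    have h5 : ∑ q : Fin d → Fin m, (pcell ℓ q).indicator (fun _ => D) (x i) =
        D * ∑ q : Fin d → Fin m, (pcell ℓ q).indicator (fun _ => (1 : ℝ)) (x i) := by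
      rw [Finset.mul_sum]
      refine Finset.sum_congr rfl fun q _ => ?_
      by_cases hx : x i ∈ pcell ℓ q
      · simp [Set.indicator_of_mem hx]
      · simp [Set.indicator_of_notMem hx]
    rw [h5]
    calc D * _ ≤ D * 1 := mul_le_mul_of_nonneg_left ((le_abs_self _).trans h4) hD0
      _ = D := mul_one D
  refine (Finset.sum_le_sum h3).trans (le_of_eq ?_)
  rw [Finset.sum_const, Finset.card_univ, Fintype.card_fin, nsmul_eq_mul]

theorem sum_phi (g : (Fin d → Fin m) → Fin d → ℝ) (σ : (Fin d → Fin m) → Fin 4)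
    (x : Fin N → Fin d → ℝ) :
    ∑ i, phi ℓ g σ (x i) = ∑ q, (Complex.I ^ (σ q : ℕ) * amp ℓ q (g q) x).re := by
  unfold phi amp
  rw [Finset.sum_comm]
  refine Finset.sum_congr rfl fun q _ => ?_
  rw [Finset.mul_sum, Complex.re_sum]
  refine Finset.sum_congr rfl fun i _ => ?_
  by_cases hx : x i ∈ pcell ℓ q
  · simp only [Set.indicator_of_mem hx]
  · simp only [Set.indicator_of_notMem hx, mul_zero, Complex.zero_re]

open Classical in
/-- no Bragg peaks, even locally -/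
theorem bragg (hd : 1 ≤ d) (hL : 0 < L) {μ : Measure (Fin N → Fin d → ℝ)}
    (hμ : Good d N L θ μ) (hm : 0 < m) (K δ : ℝ) (hδ0 : 0 < δ) (hδ1 : δ ≤ 1)
    (hθ : 32 * θ ≤ δ ^ 2) (M : ℕ) (hM : 16 * d * (L / m) * K / δ ≤ M) :
    μ {x | ∃ κ : (Fin d → Fin m) → Fin d → ℝ,
      (∀ q, (∀ j, |κ q j| ≤ K) ∧ ∃ j, 64 * m / (δ * L) ≤ |κ q j|) ∧
      δ * N ≤ ∑ q, ‖amp (L / m) q (κ q) x‖} ≤
      ENNReal.ofReal (((2 * M + 1) ^ d * 4) ^ (m ^ d) * Real.exp (-(δ ^ 2 * N / 32))) := by
  have hm0 : (0 : ℝ) < m := by exact_mod_cast hm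
  have hm1 : (1 : ℝ) ≤ m := by exact_mod_cast hm
  have hd0 : (0 : ℝ) < d := by exact_mod_cast hd
  have hd1 : (1 : ℝ) ≤ d := by exact_mod_cast hd
  have hℓ : 0 < L / m := by positivity
  set η : ℝ := δ / (16 * d * (L / m)) with hη
  have hη0 : 0 < η := by positivity
  set b : ℝ := 32 * m / (δ * L) with hb
  have hb0 : 0 < b := by positivity
  have hbη : 64 * m / (δ * L) - η ≥ b := by
    have h1 : η ≤ b := by
      rw [hη, hb, div_le_div_iff₀ (by positivity) (by positivity)]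
      have h2 : δ * δ ≤ 1 := by nlinarith
      have h3 : (1 : ℝ) ≤ 32 * (16 * d) := by nlinarith
      calc δ * (δ * L) = (δ * δ) * L := by ring
        _ ≤ 1 * L := by gcongr
        _ ≤ (32 * (16 * (d : ℝ))) * L := by gcongr
        _ = 32 * m * (16 * d * (L / m)) := by field_simp
    have h4 : 64 * m / (δ * L) = 2 * b := by rw [hb]; ring
    linarith
  -- the family
  let ι := (Fin d → Fin m) → (Fin d → Fin (2 * M + 1)) × Fin 4
  let gg : ι → (Fin d → Fin m) → Fin d → ℝ := fun u q j => η * (((u q).1 j : ℕ) - M : ℝ)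
  let ss : ι → (Fin d → Fin m) → Fin 4 := fun u q => (u q).2
  let E : ι → Set (Fin N → Fin d → ℝ) := fun u =>
    {x | (∀ q, ∃ j, b ≤ |gg u q j|) ∧
      ((∫ y in cube d L, phi (L / m) (gg u) (ss u) y) / L ^ d + δ / 2) * N ≤
        ∑ i, phi (L / m) (gg u) (ss u) (x i)}
  have hE : ∀ u, μ (E u) ≤ ENNReal.ofReal (Real.exp (-(δ ^ 2 * N / 32))) := by
    intro u
    have h1 : E u ⊆ {x | ((∫ y in cube d L, phi (L / m) (gg u) (ss u) y) / L ^ d + δ / 2) * N ≤
        ∑ i, phi (L / m) (gg u) (ss u) (x i)} := fun x hx => hx.2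
    refine (measure_mono h1).trans ?_
    have h2 := chernoff hL hμ (phi_meas (L / m) (gg u) (ss u)) (phi_abs hℓ (gg u) (ss u))
      (a := (∫ y in cube d L, phi (L / m) (gg u) (ss u) y) / L ^ d) (δ := δ / 2) rfl
      (by positivity) (by linarith) (by linarith)
    refine h2.trans (le_of_eq ?_)
    congr 2
    ring
  have hsub : {x : Fin N → Fin d → ℝ | ∃ κ : (Fin d → Fin m) → Fin d → ℝ,
      (∀ q, (∀ j, |κ q j| ≤ K) ∧ ∃ j, 64 * m / (δ * L) ≤ |κ q j|) ∧
      δ * N ≤ ∑ q, ‖amp (L / m) q (κ q) x‖} ⊆ ⋃ u ∈ (Finset.univ : Finset ι), E u := by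
    rintro x ⟨κ, hκ, hx⟩
    have hfl : ∀ q j, 0 ≤ ⌊κ q j / η⌋ + M ∧ ⌊κ q j / η⌋ + M < 2 * M + 1 := by
      intro q j
      have h1 := (hκ q).1 j
      have h2 : K / η ≤ M := by
        refine le_trans (le_of_eq ?_) hM
        rw [hη]
        field_simp
      rw [abs_le] at h1
      have h3 : κ q j / η ≤ M := (div_le_div_of_nonneg_right h1.2 hη0.le).trans h2
      have h4 : -(M : ℝ) ≤ κ q j / η := by
        rw [le_div_iff₀ hη0]
        rw [div_le_iff₀ hη0] at h2
        linarith [h1.1]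
      constructor
      · have : (-(M : ℤ) : ℤ) ≤ ⌊κ q j / η⌋ := by
          rw [Int.le_floor]
          push_cast
          exact h4
        linarith
      · have : ⌊κ q j / η⌋ ≤ (M : ℤ) := by
          have h5 := (Int.floor_le (κ q j / η)).trans h3
          exact_mod_cast h5
        omega
    let n : (Fin d → Fin m) → Fin d → Fin (2 * M + 1) := fun q j =>
      ⟨(⌊κ q j / η⌋ + M).toNat, by
        have := hfl q j
        omega⟩
    have hg : ∀ q j, η * (((n q j : ℕ) : ℝ) - M) = η * (⌊κ q j / η⌋ : ℝ) := by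
      intro q j
      have h1 : ((n q j : ℕ) : ℤ) = ⌊κ q j / η⌋ + M := Int.toNat_of_nonneg (hfl q j).1
      have h2 : ((n q j : ℕ) : ℝ) = (⌊κ q j / η⌋ : ℝ) + M := by exact_mod_cast h1
      rw [h2]
      ring
    have hdiff : ∀ q j, |κ q j - η * (((n q j : ℕ) : ℝ) - M)| ≤ η := by
      intro q j
      rw [hg]
      have h1 := Int.floor_le (κ q j / η)
      have h2 := (Int.lt_floor_add_one (κ q j / η)).le
      rw [le_div_iff₀ hη0] at h1
      rw [div_le_iff₀ hη0] at h2
      rw [abs_le]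
      constructor <;> nlinarith
    obtain ⟨σ, hσ⟩ : ∃ σ : (Fin d → Fin m) → Fin 4, ∀ q,
        2 / 3 * ‖amp (L / m) q (fun j => η * (((n q j : ℕ) : ℝ) - M)) x‖ ≤
        (Complex.I ^ (σ q : ℕ) * amp (L / m) q (fun j => η * (((n q j : ℕ) : ℝ) - M)) x).re :=
      ⟨fun q => (dir _).choose, fun q => (dir _).choose_spec⟩
    rw [mem_iUnion₂]
    refine ⟨fun q => (n q, σ q), Finset.mem_univ _, ?_, ?_⟩
    · intro q
      obtain ⟨j, hj⟩ := (hκ q).2
      refine ⟨j, ?_⟩
      have h1 := hdiff q j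
      have h2 : |κ q j| ≤ |κ q j - η * (((n q j : ℕ) : ℝ) - M)| +
          |η * (((n q j : ℕ) : ℝ) - M)| := by
        have := abs_add_le (κ q j - η * (((n q j : ℕ) : ℝ) - M)) (η * (((n q j : ℕ) : ℝ) - M))
        rwa [sub_add_cancel] at this
      show b ≤ |η * (((n q j : ℕ) : ℝ) - M)|
      linarith
    · have hbb : ∀ q, ∃ j, b ≤ |gg (fun q => (n q, σ q)) q j| := by
        intro q
        obtain ⟨j, hj⟩ := (hκ q).2
        refine ⟨j, ?_⟩
        have h1 := hdiff q j
        have h2 : |κ q j| ≤ |κ q j - η * (((n q j : ℕ) : ℝ) - M)| +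
            |η * (((n q j : ℕ) : ℝ) - M)| := by
          have := abs_add_le (κ q j - η * (((n q j : ℕ) : ℝ) - M)) (η * (((n q j : ℕ) : ℝ) - M))
          rwa [sub_add_cancel] at this
        show b ≤ |η * (((n q j : ℕ) : ℝ) - M)|
        linarith
      have h1 := phi_mean hm hL (gg (fun q => (n q, σ q))) (ss (fun q => (n q, σ q))) b hb0 hbb
      have h2 : 2 / (b * (L / m)) = δ / 16 := by
        rw [hb]
        field_simp
        norm_num
      rw [h2] at h1
      have h3 := (abs_le.1 h1).2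
      rw [sum_phi]
      have h4 : 2 / 3 * ∑ q, ‖amp (L / m) q (gg (fun q => (n q, σ q)) q) x‖ ≤
          ∑ q, (Complex.I ^ (ss (fun q => (n q, σ q)) q : ℕ) *
            amp (L / m) q (gg (fun q => (n q, σ q)) q) x).re := by
        rw [Finset.mul_sum]
        exact Finset.sum_le_sum fun q _ => hσ q
      have h5 := amp_diff hℓ κ (gg (fun q => (n q, σ q))) (η := η) hdiff hη0.le x
      have h6 : d * η * (L / m) = δ / 16 := by rw [hη]; field_simp
      rw [h6] at h5
      have hN0 : (0 : ℝ) ≤ N := Nat.cast_nonneg N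
      refine le_trans ?_ h4
      have h7 : ((∫ y in cube d L, phi (L / m) (gg (fun q => (n q, σ q)))
          (ss (fun q => (n q, σ q))) y) / L ^ d + δ / 2) * N ≤ (δ / 16 + δ / 2) * N := by
        gcongr
      refine h7.trans ?_
      nlinarith
  refine (measure_mono hsub).trans ((measure_biUnion_finset_le _ _).trans ?_)
  refine (Finset.sum_le_sum fun u _ => hE u).trans ?_
  rw [Finset.sum_const, nsmul_eq_mul, ← ENNReal.ofReal_natCast, ← ENNReal.ofReal_mul
    (Nat.cast_nonneg _)]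
  refine ENNReal.ofReal_le_ofReal (le_of_eq ?_)
  congr 1
  rw [Finset.card_univ]
  simp only [ι, Fintype.card_fun, Fintype.card_prod, Fintype.card_fin]
  push_cast
  ring

end Pool.Agent.U279.KT
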