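import Pool.Agent.U279.KT.Main
import Pool.Agent.U279.KT.Bragg

/-!
Boundary conditions, and uniformity in the size of the cube and the number of spheres.
-/

set_option autoImplicit false
open Filter Topology MeasureTheory Set

namespace Pool.Agent.U279.KT
open Pool.Agent.K4H61.HS

variable {d N : ℕ} {L θ r : ℝ}

/-- the configurations with all centres at distance at least `r` from the boundary of the cube -/
def inner (d : ℕ) (r L : ℝ) (N : ℕ) : Set (Fin N → Fin d → ℝ) :=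
  {x | x ∈ config d r L N ∧ ∀ i k, x i k ∈ Set.Icc r (L - r)}

/-- the uniform distribution in a set of configurations -/
noncomputable def gibbs (C : Set (Fin N → Fin d → ℝ)) : Measure (Fin N → Fin d → ℝ) :=
  (volume C)⁻¹ • volume.restrict C

theorem inner_vol (hr : 0 < r) : volume (config d r (L - 2 * r) N) ≤ volume (inner d r L N) := by
  set c : Fin N → Fin d → ℝ := fun _ _ => -r with hc
  rw [← measure_preimage_add_right volume c (config d r (L - 2 * r) N)]
  refine measure_mono fun x hx => ?_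
  have h1 : ∀ i k, x i k + -r ∈ Set.Icc (0 : ℝ) (L - 2 * r) := fun i k => hx.1 i k
  have h2 : ∀ i k, x i k ∈ Set.Icc r (L - r) := by
    intro i k
    have := h1 i k
    constructor <;> linarith [this.1, this.2]
  refine ⟨⟨fun i k => ?_, fun i j hij => ?_⟩, h2⟩
  · have := h2 i k
    constructor <;> linarith [this.1, this.2]
  · have h3 := hx.2 i j hij
    refine h3.trans (le_of_eq (Finset.sum_congr rfl fun k _ => ?_))
    show (x i k + -r - (x j k + -r)) ^ 2 = _
    ring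

theorem good_of (hr : 0 < r) (hL : 0 < L)
    (hV : 0 < (volume (config d r (L - 2 * r) N)).toReal)
    (hmom : ∀ ψ : (Fin d → ℝ) → ℝ, Measurable ψ → (∀ x, |ψ x| ≤ 1) →
      ∫ x in config d r L N, Real.exp (∑ i, ψ (x i)) ≤
        (volume (config d r (L - 2 * r) N)).toReal *
          ((∫ x in cube d L, Real.exp (ψ x)) / L ^ d) ^ N * Real.exp (θ * N))
    {C : Set (Fin N → Fin d → ℝ)} (h1 : inner d r L N ⊆ C) (h2 : C ⊆ config d r L N) :
    0 < volume C ∧ volume C < ⊤ ∧ Good d N L θ (gibbs C) := by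
  have hlt : volume C < ⊤ := lt_of_le_of_lt (measure_mono h2) (config_lt_top r L N)
  have hle : volume (config d r (L - 2 * r) N) ≤ volume C := (inner_vol hr).trans (measure_mono h1)
  have hpos : 0 < volume C := lt_of_lt_of_le (ENNReal.toReal_pos_iff.1 hV).1 hle
  have hle' : (volume (config d r (L - 2 * r) N)).toReal ≤ (volume C).toReal :=
    ENNReal.toReal_mono hlt.ne hle
  have hC0 : 0 < (volume C).toReal := ENNReal.toReal_pos hpos.ne' hlt.ne
  refine ⟨hpos, hlt, ?_, fun ψ hψ hψ1 => ?_⟩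
  · refine ⟨?_⟩
    unfold gibbs
    rw [Measure.smul_apply, Measure.restrict_apply_univ, smul_eq_mul,
      ENNReal.inv_mul_cancel hpos.ne' hlt.ne]
  · unfold gibbs
    rw [integral_smul_measure, ENNReal.toReal_inv, smul_eq_mul, inv_mul_le_iff₀ hC0]
    have hI : 0 ≤ (∫ x in cube d L, Real.exp (ψ x)) / L ^ d := by
      have : 0 ≤ ∫ x in cube d L, Real.exp (ψ x) := integral_nonneg fun _ => (Real.exp_pos _).le
      positivity
    have h3 : ∫ x in C, Real.exp (∑ i, ψ (x i)) ≤ ∫ x in config d r L N, Real.exp (∑ i, ψ (x i)) := by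
      refine setIntegral_mono_set ?_ ?_ (Eventually.of_forall h2)
      · refine Measure.integrableOn_of_bounded (M := Real.exp N) (config_lt_top r L N).ne
          (Real.measurable_exp.comp (sum_meas hψ)).aestronglyMeasurable ?_
        refine Eventually.of_forall fun x => ?_
        rw [Real.norm_eq_abs, abs_of_pos (Real.exp_pos _)]
        exact Real.exp_le_exp.2 ((le_abs_self _).trans (sum_bdd hψ1 x))
      · exact Eventually.of_forall fun x => (Real.exp_pos _).le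
    refine h3.trans ((hmom ψ hψ hψ1).trans ?_)
    rw [mul_assoc]
    refine mul_le_mul_of_nonneg_right hle' ?_
    positivity

/-- the uniform version -/
theorem good_uniform (ε : ℝ) (hε : 0 < ε) : ∀ᶠ d : ℕ in atTop, ∀ r : ℝ, 0 < r → ∀ ρ₁ ρ₂ : ℝ,
    0 < ρ₁ → ρ₂ * bv d r ≤ (eta - ε) * d →
    ∃ L₀ : ℝ, 0 < L₀ ∧ ∀ L : ℝ, L₀ ≤ L → ∀ N : ℕ, ρ₁ * L ^ d ≤ N → N ≤ ρ₂ * L ^ d →
      1 ≤ N ∧ ∀ C : Set (Fin N → Fin d → ℝ), inner d r L N ⊆ C → C ⊆ config d r L N →
      0 < volume C ∧ volume C < ⊤ ∧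
        Good d N L (Real.exp (-(ε / 6 * (d : ℝ))) / 8) (gibbs C) := by
  filter_upwards [exp_moment ε hε, eventually_ge_atTop 1] with d hd hd1
  intro r hr ρ₁ ρ₂ hρ₁ hρ₂
  by_contra hcon
  push Not at hcon
  -- a sequence of counterexamples
  have hseq : ∀ n : ℕ, ∃ L : ℝ, (n : ℝ) + 1 ≤ L ∧ ∃ N : ℕ, ρ₁ * L ^ d ≤ N ∧ (N : ℝ) ≤ ρ₂ * L ^ d ∧
      (1 ≤ N → ∃ C : Set (Fin N → Fin d → ℝ), inner d r L N ⊆ C ∧ C ⊆ config d r L N ∧
        (0 < volume C → volume C < ⊤ →
          ¬ Good d N L (Real.exp (-(ε / 6 * (d : ℝ))) / 8) (gibbs C))) := by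
    intro n
    exact hcon ((n : ℝ) + 1) (by positivity)
  choose L hL N hN1 hN2 hbad using hseq
  have hL0 : ∀ n, 0 < L n := fun n => by
    have := hL n
    have : (0 : ℝ) ≤ n := Nat.cast_nonneg n
    linarith
  have hLtop : Tendsto L atTop atTop := by
    refine tendsto_atTop_mono (fun n => ?_) tendsto_natCast_atTop_atTop
    linarith [hL n]
  have hmem : ∀ n, (N n : ℝ) / L n ^ d ∈ Set.Icc ρ₁ ρ₂ := by
    intro n
    have h1 : 0 < L n ^ d := pow_pos (hL0 n) d
    exact ⟨(le_div_iff₀ h1).2 (hN1 n), (div_le_iff₀ h1).2 (hN2 n)⟩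
  obtain ⟨ρ, hρ, φ, hφ, hlim⟩ := isCompact_Icc.tendsto_subseq hmem
  have hρ0 : 0 < ρ := lt_of_lt_of_le hρ₁ hρ.1
  have hbv := bv_pos d hr
  have hev := hd r hr ρ hρ0 ((mul_le_mul_of_nonneg_right hρ.2 hbv.le).trans hρ₂)
    (fun k => L (φ k)) (fun k => N (φ k)) (hLtop.comp hφ.tendsto_atTop) hlim
  obtain ⟨k, hk⟩ := hev.exists
  obtain ⟨k1, k2, k3, k4⟩ := hk
  obtain ⟨C, hC1, hC2, hC3⟩ := hbad (φ k) k2
  obtain ⟨g1, g2, g3⟩ := good_of hr k1 k3 k4 hC1 hC2
  exact hC3 g1 g2 g3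

end Pool.Agent.U279.KT
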