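import Pool.Agent.U279.KT.Conf

/-!
Consequences of the bound for exponential moments.
-/

set_option autoImplicit false
open MeasureTheory Set

namespace Pool.Agent.U279.KT

variable {d N : ℕ} {L θ : ℝ}

/-- a probability measure on configurations whose linear statistics have the exponential moments
of independent uniform points, up to a factor `exp (θ N)` -/
structure Good (d N : ℕ) (L θ : ℝ) (μ : Measure (Fin N → Fin d → ℝ)) : Prop where
  prob : IsProbabilityMeasure μ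
  mom : ∀ ψ : (Fin d → ℝ) → ℝ, Measurable ψ → (∀ x, |ψ x| ≤ 1) →
    ∫ x, Real.exp (∑ i, ψ (x i)) ∂μ ≤
      ((∫ x in cube d L, Real.exp (ψ x)) / L ^ d) ^ N * Real.exp (θ * N)

theorem intOn_bdd {φ : (Fin d → ℝ) → ℝ} (hφ : Measurable φ) {b : ℝ} (hb : ∀ x, |φ x| ≤ b) :
    IntegrableOn φ (cube d L) := by
  refine Measure.integrableOn_of_bounded (M := b) (cube_lt d L).ne hφ.aestronglyMeasurable ?_
  exact Filter.Eventually.of_forall fun x => by rw [Real.norm_eq_abs]; exact hb x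

theorem cube_real (hL : 0 < L) : (volume (cube d L)).toReal = L ^ d := by
  rw [cube_vol d hL.le, ENNReal.toReal_ofReal (by positivity)]

theorem mean_le (hL : 0 < L) {φ : (Fin d → ℝ) → ℝ} (h1 : ∀ x, |φ x| ≤ 1) :
    |(∫ x in cube d L, φ x) / L ^ d| ≤ 1 := by
  have hLd : 0 < L ^ d := by positivity
  rw [abs_div, abs_of_pos hLd, div_le_one hLd, ← Real.norm_eq_abs]
  have := norm_setIntegral_le_of_norm_le_const (μ := volume) (s := cube d L) (f := φ) (C := 1)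
    (cube_lt d L) (fun x _ => by rw [Real.norm_eq_abs]; exact h1 x)
  rwa [Measure.real, cube_real hL, one_mul] at this

theorem mean_exp (hL : 0 < L) {φ : (Fin d → ℝ) → ℝ} (hφ : Measurable φ) (h1 : ∀ x, |φ x| ≤ 1)
    {a t : ℝ} (ha : a = (∫ x in cube d L, φ x) / L ^ d) (ht : |t| ≤ 1 / 2) :
    (∫ x in cube d L, Real.exp (t * (φ x - a))) / L ^ d ≤ Real.exp (t ^ 2) := by
  have hLd : 0 < L ^ d := by positivity
  have ha1 : |a| ≤ 1 := by rw [ha]; exact mean_le hL h1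
  have hψ1 : ∀ x, |t * (φ x - a)| ≤ 1 := by
    intro x
    rw [abs_mul]
    have h2 : |φ x - a| ≤ 2 := by
      have := abs_sub (φ x) a
      linarith [h1 x]
    nlinarith [abs_nonneg t, abs_nonneg (φ x - a)]
  have hpt : ∀ x, Real.exp (t * (φ x - a)) ≤
      (1 - t * a + t ^ 2 * (1 + a ^ 2)) + (t - 2 * a * t ^ 2) * φ x := by
    intro x
    have h2 := (abs_le.1 (Real.abs_exp_sub_one_sub_id_le (hψ1 x))).2
    have h3 : φ x ^ 2 ≤ 1 := by
      rw [← sq_abs]
      exact pow_le_one₀ (abs_nonneg _) (h1 x)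
    have h4 : t ^ 2 * φ x ^ 2 ≤ t ^ 2 * 1 := mul_le_mul_of_nonneg_left h3 (sq_nonneg t)
    have h5 : (t * (φ x - a)) ^ 2 = t ^ 2 * φ x ^ 2 - 2 * a * t ^ 2 * φ x + t ^ 2 * a ^ 2 := by
      ring
    rw [h5] at h2
    linarith
  have hφi := intOn_bdd (L := L) hφ h1
  have hi1 : IntegrableOn (fun x => Real.exp (t * (φ x - a))) (cube d L) := by
    refine intOn_bdd (b := Real.exp 1) (by fun_prop) fun x => ?_
    rw [abs_of_pos (Real.exp_pos _)]
    exact Real.exp_le_exp.2 (abs_le.1 (hψ1 x)).2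
  have hi2 : IntegrableOn (fun x => (1 - t * a + t ^ 2 * (1 + a ^ 2)) +
      (t - 2 * a * t ^ 2) * φ x) (cube d L) :=
    (integrableOn_const (cube_lt d L).ne).add (hφi.const_mul _)
  have h2 := setIntegral_mono hi1 hi2 hpt
  have h3 : ∫ x in cube d L, ((1 - t * a + t ^ 2 * (1 + a ^ 2)) + (t - 2 * a * t ^ 2) * φ x) =
      (1 + t ^ 2 * (1 - a ^ 2)) * L ^ d := by
    have hci : Integrable (fun _ : Fin d → ℝ => 1 - t * a + t ^ 2 * (1 + a ^ 2))
        (volume.restrict (cube d L)) := integrableOn_const (cube_lt d L).ne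
    rw [integral_add hci (hφi.const_mul _), setIntegral_const,
      integral_const_mul, Measure.real, cube_real hL, smul_eq_mul]
    have h4 : ∫ x in cube d L, φ x = a * L ^ d := by rw [ha]; field_simp
    rw [h4]
    ring
  rw [h3] at h2
  rw [div_le_iff₀ hLd]
  refine h2.trans (mul_le_mul_of_nonneg_right ?_ hLd.le)
  have h4 := Real.add_one_le_exp (t ^ 2)
  nlinarith [sq_nonneg t, sq_nonneg a, mul_nonneg (sq_nonneg t) (sq_nonneg a)]

theorem mgf_le (hL : 0 < L) {μ : Measure (Fin N → Fin d → ℝ)} (hμ : Good d N L θ μ)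
    {φ : (Fin d → ℝ) → ℝ} (hφ : Measurable φ) (h1 : ∀ x, |φ x| ≤ 1)
    {a t : ℝ} (ha : a = (∫ x in cube d L, φ x) / L ^ d) (ht : |t| ≤ 1 / 2) :
    ∫ x, Real.exp (t * (∑ i, φ (x i) - a * N)) ∂μ ≤ Real.exp (N * (t ^ 2 + θ)) := by
  have ha1 : |a| ≤ 1 := by rw [ha]; exact mean_le hL h1
  have hψ1 : ∀ x, |t * (φ x - a)| ≤ 1 := by
    intro x
    rw [abs_mul]
    have h2 : |φ x - a| ≤ 2 := by
      have := abs_sub (φ x) a
      linarith [h1 x]
    nlinarith [abs_nonneg t, abs_nonneg (φ x - a)]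
  have h2 := hμ.mom (fun x => t * (φ x - a)) (by fun_prop) hψ1
  have h3 : ∀ x : Fin N → Fin d → ℝ, ∑ i, t * (φ (x i) - a) = t * (∑ i, φ (x i) - a * N) := by
    intro x
    rw [← Finset.mul_sum, Finset.sum_sub_distrib, Finset.sum_const, Finset.card_univ,
      Fintype.card_fin, nsmul_eq_mul]
    ring
  simp_rw [h3] at h2
  refine h2.trans ?_
  have h4 := mean_exp hL hφ h1 ha ht
  have h5 : 0 ≤ (∫ x in cube d L, Real.exp (t * (φ x - a))) / L ^ d := by
    have : 0 ≤ ∫ x in cube d L, Real.exp (t * (φ x - a)) :=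
      integral_nonneg fun _ => (Real.exp_pos _).le
    positivity
  calc _ ≤ Real.exp (t ^ 2) ^ N * Real.exp (θ * N) := by gcongr
    _ = Real.exp (N * (t ^ 2 + θ)) := by
      rw [← Real.exp_nat_mul, ← Real.exp_add]
      congr 1
      ring

theorem sum_bdd {φ : (Fin d → ℝ) → ℝ} (h1 : ∀ x, |φ x| ≤ 1) (x : Fin N → Fin d → ℝ) :
    |∑ i, φ (x i)| ≤ N := by
  refine (Finset.abs_sum_le_sum_abs _ _).trans ?_
  refine (Finset.sum_le_sum fun i _ => h1 (x i)).trans ?_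
  simp

theorem sum_meas {φ : (Fin d → ℝ) → ℝ} (hφ : Measurable φ) :
    Measurable (fun x : Fin N → Fin d → ℝ => ∑ i, φ (x i)) :=
  Finset.measurable_sum _ fun i _ => hφ.comp (measurable_pi_apply i)

theorem exp_int {μ : Measure (Fin N → Fin d → ℝ)} [IsProbabilityMeasure μ]
    {φ : (Fin d → ℝ) → ℝ} (hφ : Measurable φ) (h1 : ∀ x, |φ x| ≤ 1) (a t c : ℝ) :
    Integrable (fun x : Fin N → Fin d → ℝ => Real.exp (t * (∑ i, φ (x i) - a * N) - c)) μ := by
  refine Integrable.of_bound (C := Real.exp (|t| * (N + |a * N|) + |c|)) ?_ ?_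
  · have := sum_meas (N := N) hφ
    exact (by fun_prop : Measurable _).aestronglyMeasurable
  · refine Filter.Eventually.of_forall fun x => ?_
    rw [Real.norm_eq_abs, abs_of_pos (Real.exp_pos _)]
    refine Real.exp_le_exp.2 ?_
    have h2 : |∑ i, φ (x i) - a * N| ≤ N + |a * N| := by
      have := abs_sub (∑ i, φ (x i)) (a * N)
      linarith [sum_bdd h1 x]
    have h3 : t * (∑ i, φ (x i) - a * N) ≤ |t| * (N + |a * N|) := by
      calc _ ≤ |t * (∑ i, φ (x i) - a * N)| := le_abs_self _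
        _ = |t| * |∑ i, φ (x i) - a * N| := abs_mul _ _
        _ ≤ _ := mul_le_mul_of_nonneg_left h2 (abs_nonneg _)
    linarith [neg_abs_le c]

/-- the Chernoff bound -/
theorem chernoff (hL : 0 < L) {μ : Measure (Fin N → Fin d → ℝ)} (hμ : Good d N L θ μ)
    {φ : (Fin d → ℝ) → ℝ} (hφ : Measurable φ) (h1 : ∀ x, |φ x| ≤ 1)
    {a δ : ℝ} (ha : a = (∫ x in cube d L, φ x) / L ^ d) (hδ0 : 0 ≤ δ) (hδ1 : δ ≤ 1)
    (hθ : 8 * θ ≤ δ ^ 2) :
    μ {x | (a + δ) * N ≤ ∑ i, φ (x i)} ≤ ENNReal.ofReal (Real.exp (-(δ ^ 2 * N / 8))) := by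
  have := hμ.prob
  have hint := exp_int (μ := μ) hφ h1 a (δ / 2) 0
  simp only [sub_zero] at hint
  have h2 := ProbabilityTheory.measure_ge_le_exp_mul_mgf
    (X := fun x : Fin N → Fin d → ℝ => ∑ i, φ (x i) - a * N) (μ := μ) (t := δ / 2) (δ * N)
    (by positivity) hint
  have h3 : {x : Fin N → Fin d → ℝ | (a + δ) * N ≤ ∑ i, φ (x i)} =
      {x | δ * N ≤ ∑ i, φ (x i) - a * N} := by
    ext x
    simp only [Set.mem_ofPred_eq]
    constructor <;> intro h <;> linarith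
  rw [h3]
  rw [← ENNReal.ofReal_toReal (measure_ne_top μ _)]
  refine ENNReal.ofReal_le_ofReal ?_
  refine h2.trans ?_
  unfold ProbabilityTheory.mgf
  have h4 := mgf_le hL hμ hφ h1 (t := δ / 2) ha (by rw [abs_of_nonneg (by positivity)]; linarith)
  refine (mul_le_mul_of_nonneg_left h4 (Real.exp_pos _).le).trans ?_
  rw [← Real.exp_add]
  refine Real.exp_le_exp.2 ?_
  have h5 : (0 : ℝ) ≤ N := Nat.cast_nonneg N
  nlinarith

/-- the expectation of linear statistics -/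
theorem expect_le (hL : 0 < L) {μ : Measure (Fin N → Fin d → ℝ)} (hμ : Good d N L θ μ)
    {φ : (Fin d → ℝ) → ℝ} (hφ : Measurable φ) (h1 : ∀ x, |φ x| ≤ 1)
    {a t : ℝ} (ha : a = (∫ x in cube d L, φ x) / L ^ d) (ht : |t| ≤ 1 / 2) :
    t * (∫ x, ∑ i, φ (x i) ∂μ - a * N) ≤ N * (t ^ 2 + θ) := by
  have := hμ.prob
  set c := (N : ℝ) * (t ^ 2 + θ) with hc
  have h2 := mgf_le hL hμ hφ h1 ha ht
  have h3 : ∫ x, Real.exp (t * (∑ i, φ (x i) - a * N) - c) ∂μ ≤ 1 := by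
    simp_rw [Real.exp_sub]
    rw [integral_div, div_le_one (Real.exp_pos _)]
    exact h2
  have hs : Integrable (fun x : Fin N → Fin d → ℝ => ∑ i, φ (x i)) μ := by
    refine Integrable.of_bound (C := (N : ℝ)) (sum_meas hφ).aestronglyMeasurable ?_
    exact Filter.Eventually.of_forall fun x => by rw [Real.norm_eq_abs]; exact sum_bdd h1 x
  have h4 : ∫ x, (1 + (t * (∑ i, φ (x i) - a * N) - c)) ∂μ ≤
      ∫ x, Real.exp (t * (∑ i, φ (x i) - a * N) - c) ∂μ := by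
    refine integral_mono ?_ (exp_int hφ h1 a t c) fun x => ?_
    · exact (integrable_const _).add (((hs.sub (integrable_const _)).const_mul t).sub
        (integrable_const _))
    · have := Real.add_one_le_exp (t * (∑ i, φ (x i) - a * N) - c)
      dsimp only
      linarith
  have h5 : ∫ x, (1 + (t * (∑ i, φ (x i) - a * N) - c)) ∂μ =
      1 + (t * (∫ x, ∑ i, φ (x i) ∂μ - a * N) - c) := by
    have h6 : ∀ x : Fin N → Fin d → ℝ, 1 + (t * (∑ i, φ (x i) - a * N) - c) =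
        (1 - t * (a * N) - c) + t * ∑ i, φ (x i) := fun x => by ring
    simp_rw [h6]
    rw [integral_add (integrable_const _) (hs.const_mul t), integral_const_mul]
    simp only [integral_const, probReal_univ, smul_eq_mul, one_mul]
    ring
  linarith

theorem expect_abs (hL : 0 < L) (hN : 1 ≤ N) {μ : Measure (Fin N → Fin d → ℝ)}
    (hμ : Good d N L θ μ)
    {φ : (Fin d → ℝ) → ℝ} (hφ : Measurable φ) (h1 : ∀ x, |φ x| ≤ 1)
    {g : ℝ} (hg0 : 0 < g) (hg1 : g ≤ 1) (hθ : 8 * θ ≤ g ^ 2) :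
    |(∫ x, ∑ i, φ (x i) ∂μ) / N - (∫ x in cube d L, φ x) / L ^ d| ≤ g := by
  have hN0 : (0 : ℝ) < N := by exact_mod_cast hN
  obtain ⟨a, ha⟩ : ∃ a, a = (∫ x in cube d L, φ x) / L ^ d := ⟨_, rfl⟩
  have h2 := expect_le hL hμ hφ h1 (t := g / 2) ha
    (by rw [abs_of_nonneg (by positivity)]; linarith)
  have h3 := expect_le hL hμ hφ h1 (t := -(g / 2)) ha
    (by rw [abs_neg, abs_of_nonneg (by positivity)]; linarith)
  rw [← ha]
  set E := ∫ x, ∑ i, φ (x i) ∂μ with hE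
  have h4 : E / N - a = (E - a * N) / N := by field_simp
  rw [h4, abs_div, abs_of_pos hN0, div_le_iff₀ hN0]
  have h5 : |E - a * N| * (g / 2) ≤ N * ((g / 2) ^ 2 + θ) := by
    rcases abs_cases (E - a * N) with ⟨h, _⟩ | ⟨h, _⟩ <;> rw [h] <;> nlinarith
  have h6 : N * ((g / 2) ^ 2 + θ) ≤ (g * N) * (g / 2) := by nlinarith
  exact le_of_mul_le_mul_right (h5.trans h6) (by positivity)

/-- a finite family of linear statistics -/
theorem family (hL : 0 < L) {μ : Measure (Fin N → Fin d → ℝ)} (hμ : Good d N L θ μ)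
    {ι : Type} (Φ : Finset ι) (φ : ι → (Fin d → ℝ) → ℝ) (hφ : ∀ i ∈ Φ, Measurable (φ i))
    (h1 : ∀ i ∈ Φ, ∀ x, |φ i x| ≤ 1)
    {δ : ℝ} (hδ0 : 0 ≤ δ) (hδ1 : δ ≤ 1) (hθ : 8 * θ ≤ δ ^ 2) :
    μ {x | ∃ j ∈ Φ, δ * N ≤ |∑ i, φ j (x i) - (∫ y in cube d L, φ j y) / L ^ d * N|} ≤
      ENNReal.ofReal (2 * Φ.card * Real.exp (-(δ ^ 2 * N / 8))) := by
  have hsub : {x : Fin N → Fin d → ℝ | ∃ j ∈ Φ, δ * N ≤
      |∑ i, φ j (x i) - (∫ y in cube d L, φ j y) / L ^ d * N|} ⊆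
      ⋃ j ∈ Φ, ({x : Fin N → Fin d → ℝ |
          ((∫ y in cube d L, φ j y) / L ^ d + δ) * N ≤ ∑ i, φ j (x i)} ∪
        {x | ((∫ y in cube d L, -φ j y) / L ^ d + δ) * N ≤ ∑ i, -φ j (x i)}) := by
    intro x hx
    obtain ⟨j, hj, hx⟩ := hx
    rw [mem_iUnion₂]
    refine ⟨j, hj, ?_⟩
    rcases le_abs.1 hx with h | h
    · left
      simp only [Set.mem_ofPred_eq]
      linarith
    · right
      simp only [Set.mem_ofPred_eq]
      rw [integral_neg, Finset.sum_neg_distrib, neg_div]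
      linarith
  refine (measure_mono hsub).trans ((measure_biUnion_finset_le _ _).trans ?_)
  have h2 : ∀ j ∈ Φ, μ ({x : Fin N → Fin d → ℝ |
          ((∫ y in cube d L, φ j y) / L ^ d + δ) * N ≤ ∑ i, φ j (x i)} ∪
        {x | ((∫ y in cube d L, -φ j y) / L ^ d + δ) * N ≤ ∑ i, -φ j (x i)}) ≤
        ENNReal.ofReal (2 * Real.exp (-(δ ^ 2 * N / 8))) := by
    intro j hj
    refine (measure_union_le _ _).trans ?_
    rw [two_mul, ENNReal.ofReal_add (Real.exp_pos _).le (Real.exp_pos _).le]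
    refine add_le_add ?_ ?_
    · exact chernoff hL hμ (hφ j hj) (h1 j hj) rfl hδ0 hδ1 hθ
    · exact chernoff hL hμ (hφ j hj).neg (fun x => by
        rw [Pi.neg_apply, abs_neg]; exact h1 j hj x) rfl hδ0 hδ1 hθ
  refine (Finset.sum_le_sum h2).trans ?_
  rw [Finset.sum_const, nsmul_eq_mul, ← ENNReal.ofReal_natCast, ← ENNReal.ofReal_mul
    (Nat.cast_nonneg _)]
  refine ENNReal.ofReal_le_ofReal (le_of_eq ?_)
  ring

end Pool.Agent.U279.KT
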