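import Pool.Agent.U279.KT.Asym

/-!
The uniform bound for the exponential moments of linear statistics of hard spheres in high
dimension, relative to the volume of the configurations of an inner cube.
-/

set_option autoImplicit false
open Filter Topology MeasureTheory

namespace Pool.Agent.U279.KT
open Pool.Agent.K4H61.HS

theorem exp_moment (ε : ℝ) (hε : 0 < ε) : ∀ᶠ d : ℕ in atTop, ∀ r : ℝ, 0 < r → ∀ ρ : ℝ, 0 < ρ →
    ρ * bv d r ≤ (eta - ε) * d → ∀ (L : ℕ → ℝ) (N : ℕ → ℕ), Tendsto L atTop atTop →
    Tendsto (fun k => (N k : ℝ) / L k ^ d) atTop (𝓝 ρ) →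
    ∀ᶠ k in atTop, 0 < L k ∧ 1 ≤ N k ∧ 0 < (volume (config d r (L k - 2 * r) (N k))).toReal ∧
      ∀ ψ : (Fin d → ℝ) → ℝ, Measurable ψ → (∀ x, |ψ x| ≤ 1) →
      ∫ x in config d r (L k) (N k), Real.exp (∑ i, ψ (x i)) ≤
        (volume (config d r (L k - 2 * r) (N k))).toReal *
          ((∫ x in cube d (L k), Real.exp (ψ x)) / L k ^ d) ^ (N k) *
            Real.exp (Real.exp (-(ε / 6 * (d : ℝ))) / 8 * N k) := by
  have heta := eta_le
  have heta0 := eta_pos
  by_cases hε1 : eta < ε
  · filter_upwards [eventually_ge_atTop 1] with d hd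
    intro r hr ρ hρ hlam
    exfalso
    have h1 : 0 < ρ * bv d r := mul_pos hρ (bv_pos d hr)
    have h2 : (eta - ε) * d ≤ 0 :=
      mul_nonpos_of_nonpos_of_nonneg (by linarith) (Nat.cast_nonneg d)
    linarith
  push Not at hε1
  filter_upwards [eventually_ge_atTop 20, free_energy ε hε,
    exp_small 1 1 (ε / 5) 1 (by linarith),
    exp_small (5 * Real.exp 3) ε (ε / 5) 0 (by linarith),
    exp_small 1024 (ε / 5) (ε / 6) 0 (by linarith),
    exp_small 64 (ε / 5) 0 0 (by linarith)] with d hd hFE E6 E7 E8 E9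
  intro r hr ρ hρ hlam L N hL hN
  have hd1 : 1 ≤ d := by omega
  have hdr : (20 : ℝ) ≤ d := by exact_mod_cast hd
  have hd0 : (0 : ℝ) < d := by linarith
  set τ := Real.exp (-(ε / 5 * (d : ℝ))) with hτ
  set u := Real.exp (-(1 * (d : ℝ))) with hu
  set v := Real.exp (-(7 / 48 * (d : ℝ))) with hv
  set e := Real.exp (-(ε / 6 * (d : ℝ))) with he
  set z := Real.exp (-(ε * (d : ℝ))) with hz
  have hτ0 : 0 < τ := Real.exp_pos _
  have hu0 : 0 < u := Real.exp_pos _
  have hv0 : 0 < v := Real.exp_pos _
  have hz0 : 0 < z := Real.exp_pos _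
  have he0 : 0 < e := Real.exp_pos _
  simp only [pow_one, pow_zero, mul_one, one_mul] at E6 E7 E8 E9
  have hτ64 : τ ≤ 1 / 64 := by
    rw [zero_mul, neg_zero, Real.exp_zero] at E9
    linarith
  have huv : u ≤ v := by
    rw [hu, hv]
    refine Real.exp_le_exp.2 ?_
    linarith
  have hudτ : d * u ≤ τ := E6
  have huτ : u ≤ τ := by
    have h1 : 1 * u ≤ d * u := mul_le_mul_of_nonneg_right (by linarith) hu0.le
    linarith
  have heps := eps_le d
  rw [← hv] at heps
  have heps0 := eps_pos d
  set B := bv d r with hB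
  have hB0 : 0 < B := bv_pos d hr
  have hb1 := bv_pos d one_pos
  set lam := ρ * B with hlam'
  have hlam0 : 0 < lam := by positivity
  set K : ℝ := (eta - ε) * d with hK
  have hKd : K ≤ d / 6 := by
    rw [hK]
    have : eta - ε ≤ 1 / 6 := by linarith
    have := mul_le_mul_of_nonneg_right this hd0.le
    linarith
  have hvK : Real.exp K * v ≤ z := by
    rw [hv, hz, ← Real.exp_add]
    refine Real.exp_le_exp.2 ?_
    rw [hK]
    have := mul_le_mul_of_nonneg_right heta hd0.le
    linarith
  set ω := u / d with hω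
  have hω0 : 0 < ω := by positivity
  have hωd : d * ω = u := by rw [hω]; field_simp
  have hωu : ω ≤ u := by
    rw [hω]
    exact div_le_self hu0.le (by linarith)
  have hω1 : ω ≤ 1 := by linarith
  set h := r * ω / √d with hh'
  have hsd : 0 < √(d : ℝ) := Real.sqrt_pos.2 hd0
  have hh : 0 < h := by positivity
  have hdh : √d * h = r * ω := by rw [hh']; field_simp
  have hscale : ∀ c : ℝ, 0 < c → bv d (r * c) = c ^ d * B := by
    intro c hc
    rw [hB, bv_scale d (by positivity : 0 < r * c), bv_scale d hr]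
    ring
  set p' := (1 - 2 * ω) ^ d with hp'
  have hB2 : bv d (r - 2 * (√d * h)) = p' * B := by
    rw [hdh, hp', ← hscale _ (by linarith)]; congr 1; ring
  have hp'1 : 1 - 2 * u ≤ p' := by
    have h1 := one_add_mul_le_pow (a := -(2 * ω)) (by linarith) d
    have h2 : 1 + (d : ℝ) * -(2 * ω) = 1 - 2 * u := by rw [← hωd]; ring
    rw [h2] at h1
    rw [hp']
    refine h1.trans (le_of_eq ?_)
    congr 1
  have hp'2 : p' ≤ 1 := pow_le_one₀ (by linarith) (by linarith)
  have hhB : h ^ d ≤ u * B := by
    have h1 : h ^ d = ω ^ d * (1 / √d) ^ d * r ^ d := by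
      rw [hh', ← mul_pow, ← mul_pow]; congr 1; ring
    have h2 : ω ^ d ≤ u := (pow_le_of_le_one hω0.le hω1 (by omega)).trans hωu
    have h3 := bv_one_ge d hd1
    have h4 : u * B = u * bv d 1 * r ^ d := by rw [hB, bv_scale d hr]; ring
    rw [h1, h4]
    gcongr
  have hlamd : lam ≤ K := hlam
  set y := ρ * bv d (r - 2 * (√d * h)) with hy
  have hyp : y = lam * p' := by rw [hy, hB2, hlam']; ring
  have hyl : lam - τ ≤ y := by
    rw [hyp]
    have h1 : lam * (1 - 2 * u) ≤ lam * p' := mul_le_mul_of_nonneg_left hp'1 hlam0.le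
    have h2 : lam * (2 * u) ≤ d / 6 * (2 * u) :=
      mul_le_mul_of_nonneg_right (hlamd.trans hKd) (by positivity)
    have h3 : 0 ≤ d * u := by positivity
    have h4 : lam * (1 - 2 * u) = lam - lam * (2 * u) := by ring
    linarith
  have hyu : y ≤ K := by
    rw [hyp]
    have := mul_le_mul_of_nonneg_left hp'2 hlam0.le
    linarith
  -- the upper bound
  have hup : ∀ᶠ k in atTop, ∀ ψ : (Fin d → ℝ) → ℝ, Measurable ψ → (∀ x, |ψ x| ≤ 1) →
      ∫ x in config d r (L k) (N k), Real.exp (∑ i, ψ (x i)) ≤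
        (∫ x in cube d (L k), Real.exp (ψ x)) ^ (N k) *
          Real.exp ((-(lam / 2) + e / 16) * N k) := by
    refine asym_w hd1 r _ hh hρ (by
      rw [hdh]
      have := mul_le_mul_of_nonneg_left (by linarith : ω ≤ 1 / 64) hr.le
      linarith) y hy hL hN ?_
    have h1 : h ^ d / bv d (r - 2 * (√d * h)) ≤ 2 * u := by
      rw [hB2, div_le_iff₀ (by
        have : 0 < p' := by linarith
        positivity)]
      have h2 : u * B ≤ 2 * u * (p' * B) := by
        have h3 : 1 ≤ 2 * p' := by linarith
        have h4 : 0 < u * B := by positivity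
        have := mul_le_mul_of_nonneg_left h3 h4.le
        linarith
      linarith
    have h2 : h ^ d / bv d (r - 2 * (√d * h)) + eps d ≤ 5 * v := by linarith
    have h3 : Real.exp (y + 1) ≤ Real.exp (K + 1) := Real.exp_le_exp.2 (by linarith)
    have h4 : (h ^ d / bv d (r - 2 * (√d * h)) + eps d) * Real.exp (y + 1) ≤
        5 * v * Real.exp (K + 1) :=
      mul_le_mul h2 h3 (Real.exp_pos _).le (by positivity)
    have h5 : Real.exp 2 * (5 * v * Real.exp (K + 1)) ≤ 5 * Real.exp 3 * z := by
      have h6 : Real.exp 2 * (5 * v * Real.exp (K + 1)) =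
          5 * (Real.exp 2 * Real.exp 1) * (Real.exp K * v) := by
        rw [Real.exp_add]; ring
      have h7 : Real.exp 2 * Real.exp 1 = Real.exp 3 := by rw [← Real.exp_add]; norm_num
      rw [h6, h7]
      gcongr
    have h6 : 5 * Real.exp 3 * z ≤ τ := E7
    have h7 := mul_le_mul_of_nonneg_left h4 (Real.exp_pos 2).le
    rw [← mul_assoc] at h7
    linarith
  -- the shifted cube
  have hL' : Tendsto (fun k => L k - 2 * r) atTop atTop :=
    tendsto_atTop_add_const_right _ (-(2 * r)) hL
  have hN' : Tendsto (fun k => (N k : ℝ) / (L k - 2 * r) ^ d) atTop (𝓝 ρ) := by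
    have h1 : Tendsto (fun k => (L k - 2 * r) / L k) atTop (𝓝 1) := by
      have h2 : Tendsto (fun k => 2 * r / L k) atTop (𝓝 0) := hL.const_div_atTop _
      have h3 := h2.const_sub 1
      rw [sub_zero] at h3
      refine h3.congr' ?_
      filter_upwards [hL.eventually_gt_atTop 0] with k hk
      field_simp
    have h2 := hN.div (h1.pow d) (by norm_num)
    rw [one_pow, div_one] at h2
    refine h2.congr' ?_
    filter_upwards [hL.eventually_gt_atTop 0, hL'.eventually_gt_atTop 0] with k hk hk2
    simp only [Pi.div_apply]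
    rw [div_pow]
    field_simp
  have hfe := hFE r hr ρ hρ hlam (fun k => L k - 2 * r) N hL' hN'
  have hlog : ∀ᶠ k in atTop, Real.log (ρ / ((N k : ℝ) / L k ^ d)) ≤ e / 64 := by
    have h1 : Tendsto (fun k => Real.log (ρ / ((N k : ℝ) / L k ^ d))) atTop
        (𝓝 (Real.log (ρ / ρ))) := by
      have h2 : Tendsto (fun k => ρ / ((N k : ℝ) / L k ^ d)) atTop (𝓝 (ρ / ρ)) :=
        tendsto_const_nhds.div hN hρ.ne'
      exact (Real.continuousAt_log (by rw [div_self hρ.ne']; norm_num)).tendsto.comp h2
    rw [div_self hρ.ne', Real.log_one] at h1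
    filter_upwards [h1.eventually_lt_const (by positivity : 0 < e / 64)] with k hk using hk.le
  have hNinf : Tendsto (fun k => (N k : ℝ)) atTop atTop := lim_N hd1 hρ hL hN
  filter_upwards [hup, hfe, hlog, hL.eventually_gt_atTop 0, hNinf.eventually_ge_atTop 1]
    with k k1 k2 k3 k4 k5
  obtain ⟨k2, k2'⟩ := k2
  have hNk : (0 : ℝ) < N k := by linarith
  set V := (volume (config d r (L k - 2 * r) (N k))).toReal with hV
  have hZ : ZZ d r (L k - 2 * r) (N k) = V / ((N k).factorial : ℝ) := rfl
  have hfac : (0 : ℝ) < ((N k).factorial : ℝ) := by positivity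
  have hV0 : 0 < V := by
    rw [hZ] at k2
    by_contra hcon
    have : V / ((N k).factorial : ℝ) ≤ 0 := div_nonpos_of_nonpos_of_nonneg (not_lt.1 hcon) hfac.le
    linarith
  refine ⟨k4, by exact_mod_cast k5, hV0, fun ψ hψ hψ1 => ?_⟩
  refine (k1 ψ hψ hψ1).trans ?_
  rw [div_pow]
  set I := ∫ x in cube d (L k), Real.exp (ψ x) with hI
  have hI0 : 0 ≤ I := integral_nonneg fun _ => (Real.exp_pos _).le
  have hLd : 0 < L k ^ d := by positivity
  have hmain : Real.exp ((-(lam / 2) + e / 16) * N k) * (L k ^ d) ^ (N k) ≤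
      V * Real.exp (e / 8 * N k) := by
    rw [← Real.log_le_log_iff (by positivity) (by positivity), Real.log_mul (by positivity)
      (by positivity), Real.log_mul (by positivity) (by positivity), Real.log_exp, Real.log_exp,
      Real.log_pow]
    have h1 : N k * Real.log (N k) - N k ≤ Real.log ((N k).factorial : ℝ) := by
      have h1 := Real.pow_div_factorial_le_exp (N k : ℝ) hNk.le (N k)
      rw [div_le_iff₀ (by positivity)] at h1
      have h2 := Real.log_le_log (by positivity) h1
      rw [Real.log_mul (by positivity) (by positivity), Real.log_exp, Real.log_pow] at h2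
      linarith
    have h2 : Real.log V = Real.log ((N k).factorial : ℝ) +
        Real.log (ZZ d r (L k - 2 * r) (N k)) := by
      rw [hZ, Real.log_div (by positivity) (by positivity)]
      ring
    have h3 := (abs_le.1 k2').2
    have h4 : Real.log (ρ / ((N k : ℝ) / L k ^ d)) =
        Real.log ρ - Real.log (N k) + Real.log (L k ^ d) := by
      rw [Real.log_div (by positivity) (by positivity), Real.log_div (by positivity)
        (by positivity)]
      ring
    rw [h4] at k3
    have h5 : -(1 / (N k : ℝ)) * Real.log (ZZ d r (L k - 2 * r) (N k)) ≤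
        Real.log ρ - 1 + lam / 2 + e / 64 := by linarith
    have h6 := mul_le_mul_of_nonneg_right h5 hNk.le
    have h7 : -(1 / (N k : ℝ)) * Real.log (ZZ d r (L k - 2 * r) (N k)) * N k =
        -Real.log (ZZ d r (L k - 2 * r) (N k)) := by field_simp
    rw [h7] at h6
    have h8 := mul_le_mul_of_nonneg_right k3 hNk.le
    rw [h2]
    have h9 : 0 < e * N k := by positivity
    nlinarith
  have h1 : V * (I ^ N k / (L k ^ d) ^ N k) * Real.exp (e / 8 * N k) =
      I ^ N k * ((V * Real.exp (e / 8 * N k)) / (L k ^ d) ^ N k) := by ring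
  rw [h1]
  refine mul_le_mul_of_nonneg_left ?_ (by positivity)
  rw [le_div_iff₀ (by positivity)]
  exact hmain

end Pool.Agent.U279.KT
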